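import Mathlib

set_option autoImplicit false

open Finset Equiv

noncomputable section

open Classical

namespace Pool.Agent.Lib.MP_b5e4d4

section ClassWeight

variable {P : Type*} [Fintype P]

/-- Functions constant on the classes of `s` are functions on the quotient. -/
def constEquiv (s : Setoid P) :
    {f : P → Bool // ∀ x y, s x y → f x = f y} ≃ (Quotient s → Bool) where
  toFun f := Quotient.lift f.1 f.2
  invFun g := ⟨fun x => g (Quotient.mk s x), fun _ _ h => congrArg g (Quotient.sound h)⟩
  left_inv f := rfl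
  right_inv g := by
    funext q
    induction q using Quotient.inductionOn
    rfl

lemma card_const (s : Setoid P) :
    (univ.filter fun f : P → Bool => ∀ x y, s x y → f x = f y).card
      = 2 ^ Fintype.card (Quotient s) := by
  rw [← Fintype.card_subtype, Fintype.card_congr (constEquiv s)]
  simp

lemma sum_eq_sum_quot (s : Setoid P) (w : P → ℕ) :
    ∑ x, w x = ∑ q : Quotient s, ∑ x ∈ univ.filter (fun x => Quotient.mk s x = q), w x :=
  (Finset.sum_fiberwise univ (fun x => Quotient.mk s x) w).symm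

lemma mul_card_quot_le (s : Setoid P) (w : P → ℕ) (W : ℕ)
    (h : ∀ x, W ≤ ∑ y ∈ univ.filter (fun y => s x y), w y) :
    W * Fintype.card (Quotient s) ≤ ∑ x, w x := by
  rw [sum_eq_sum_quot s w]
  have h1 : W * Fintype.card (Quotient s) = ∑ _q : Quotient s, W := by
    simp [mul_comm]
  rw [h1]
  refine Finset.sum_le_sum fun q _ => ?_
  induction q using Quotient.inductionOn with
  | h x =>
    refine (h x).trans (le_of_eq ?_)
    refine Finset.sum_congr ?_ fun _ _ => rfl
    ext y
    simp only [mem_filter, mem_univ, true_and]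
    constructor
    · intro hxy
      exact Quotient.sound (s.symm hxy)
    · intro hxy
      exact s.symm (Quotient.exact hxy)

lemma mul_card_quot_eq (s : Setoid P) (w : P → ℕ) (W : ℕ)
    (h : ∀ x, ∑ y ∈ univ.filter (fun y => s x y), w y = W) :
    W * Fintype.card (Quotient s) = ∑ x, w x := by
  rw [sum_eq_sum_quot s w]
  have h1 : W * Fintype.card (Quotient s) = ∑ _q : Quotient s, W := by
    simp [mul_comm]
  rw [h1]
  refine Finset.sum_congr rfl fun q _ => ?_
  induction q using Quotient.inductionOn with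
  | h x =>
    rw [← h x]
    refine Finset.sum_congr ?_ fun _ _ => rfl
    ext y
    simp only [mem_filter, mem_univ, true_and]
    constructor
    · intro hxy
      exact Quotient.sound (s.symm hxy)
    · intro hxy
      exact s.symm (Quotient.exact hxy)

end ClassWeight

section Maps

variable {α : Type*}

/-- ordered pairs of distinct points -/
abbrev Pr (α : Type*) := {e : α × α // e.1 ≠ e.2}

/-- `(u,v) ↦ (ρ u, ρ v)` as a permutation of the pairs, a monoid homomorphism -/
def rh : Perm α →* Perm (Pr α) where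
  toFun ρ :=
    { toFun := fun x => ⟨(ρ x.1.1, ρ x.1.2), fun h => x.2 (ρ.injective h)⟩
      invFun := fun x => ⟨(ρ.symm x.1.1, ρ.symm x.1.2), fun h => x.2 (ρ.symm.injective h)⟩
      left_inv := fun x => by simp
      right_inv := fun x => by simp }
  map_one' := by ext x <;> rfl
  map_mul' := fun a b => by ext x <;> rfl

/-- `(u,v) ↦ (σ v, σ u)` as a permutation of the pairs -/
def ph (σ : Perm α) : Perm (Pr α) where
  toFun := fun x => ⟨(σ x.1.2, σ x.1.1), fun h => x.2 (σ.injective h).symm⟩
  invFun := fun x => ⟨(σ.symm x.1.2, σ.symm x.1.1), fun h => x.2 (σ.symm.injective h).symm⟩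
  left_inv := fun x => by simp
  right_inv := fun x => by simp

@[simp] lemma rh_fst (ρ : Perm α) (x : Pr α) : (rh ρ x).1.1 = ρ x.1.1 := rfl
@[simp] lemma rh_snd (ρ : Perm α) (x : Pr α) : (rh ρ x).1.2 = ρ x.1.2 := rfl
@[simp] lemma ph_fst (σ : Perm α) (x : Pr α) : (ph σ x).1.1 = σ x.1.2 := rfl
@[simp] lemma ph_snd (σ : Perm α) (x : Pr α) : (ph σ x).1.2 = σ x.1.1 := rfl

lemma pr_ext {x y : Pr α} (h1 : x.1.1 = y.1.1) (h2 : x.1.2 = y.1.2) : x = y :=
  Subtype.ext (Prod.ext h1 h2)

lemma pr_eq_iff {x y : Pr α} : x = y ↔ x.1.1 = y.1.1 ∧ x.1.2 = y.1.2 :=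
  ⟨fun h => by subst h; exact ⟨rfl, rfl⟩, fun h => pr_ext h.1 h.2⟩

lemma ph_mul_ph (σ τ : Perm α) : ph σ * ph τ = rh (σ * τ) := by
  ext x <;> rfl

lemma ph_mul_rh (σ ρ : Perm α) : ph σ * rh ρ = ph (σ * ρ) := by
  ext x <;> rfl

lemma rh_mul_ph (σ ρ : Perm α) : rh ρ * ph σ = ph (ρ * σ) := by
  ext x <;> rfl

/-- `σ` is an isomorphism from `f` onto its converse -/
def Anti (f : Pr α → Bool) (σ : Perm α) : Prop := ∀ x, f (ph σ x) = f x

/-- `ρ` is an automorphism of `f` -/
def Aut (f : Pr α → Bool) (ρ : Perm α) : Prop := ∀ x, f (rh ρ x) = f x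

lemma Anti.mul {f : Pr α → Bool} {σ τ : Perm α} (h1 : Anti f σ) (h2 : Anti f τ) :
    Aut f (σ * τ) := by
  intro x
  rw [← ph_mul_ph, Perm.mul_apply, h1, h2]

lemma Anti.mul_aut {f : Pr α → Bool} {σ ρ : Perm α} (h1 : Anti f σ) (h2 : Aut f ρ) :
    Anti f (σ * ρ) := by
  intro x
  rw [← ph_mul_rh, Perm.mul_apply, h1, h2]

lemma Aut.mul {f : Pr α → Bool} {σ ρ : Perm α} (h1 : Aut f σ) (h2 : Aut f ρ) :
    Aut f (σ * ρ) := by
  intro x
  rw [map_mul, Perm.mul_apply, h1, h2]

lemma Aut.one (f : Pr α → Bool) : Aut f 1 := fun x => by simp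

lemma Aut.mul_anti {f : Pr α → Bool} {σ ρ : Perm α} (h1 : Aut f ρ) (h2 : Anti f σ) :
    Anti f (ρ * σ) := by
  intro x
  rw [← rh_mul_ph, Perm.mul_apply, h1, h2]

lemma Anti.inv {f : Pr α → Bool} {σ : Perm α} (h : Anti f σ) : Anti f σ⁻¹ := by
  intro x
  rw [← h (ph σ⁻¹ x)]
  have : ph σ (ph σ⁻¹ x) = x := by
    rw [← Perm.mul_apply, ph_mul_ph]; simp
  rw [this]

lemma Aut.pow {f : Pr α → Bool} {ρ : Perm α} (h : Aut f ρ) (n : ℕ) : Aut f (ρ ^ n) := by
  induction n with
  | zero => simpa using Aut.one f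
  | succ n ih => rw [pow_succ]; exact ih.mul h

lemma Anti.pow_odd {f : Pr α → Bool} {σ : Perm α} (h : Anti f σ) {n : ℕ} (hn : Odd n) :
    Anti f (σ ^ n) := by
  obtain ⟨k, rfl⟩ := hn
  rw [pow_succ, pow_mul]
  have : Aut f (σ ^ 2) := by rw [pow_two]; exact h.mul h
  exact (this.pow k).mul_anti h

end Maps

section Pointwise

variable {α : Type*} [Fintype α]

/-- involutory anti-automorphisms -/
def invs (f : Pr α → Bool) : Finset (Perm α) := univ.filter fun σ => Anti f σ ∧ σ * σ = 1

/-- triples (σ,i,j): σ an involutory anti-automorphism fixing i and j, `swap i j` an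
automorphism -/
def trip (f : Pr α → Bool) : Finset (Perm α × α × α) :=
  univ.filter fun q => (Anti f q.1 ∧ q.1 * q.1 = 1) ∧
    (q.2.1 ≠ q.2.2 ∧ q.1 q.2.1 = q.2.1 ∧ q.1 q.2.2 = q.2.2) ∧ Aut f (swap q.2.1 q.2.2)

lemma sign_sq (σ : Perm α) : Perm.sign (σ * σ) = 1 := by
  rw [Perm.sign_mul]
  exact Int.units_mul_self _

lemma one_or_swap {ρ : Perm α} (h : ρ.support.card < 3) : ρ = 1 ∨ ρ.IsSwap := by
  have h1 : ρ.support.card = 0 ∨ ρ.support.card = 1 ∨ ρ.support.card = 2 := by omega
  rcases h1 with h1 | h1 | h1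
  · left; exact Perm.card_support_eq_zero.mp h1
  · exact absurd h1 (Perm.card_support_ne_one ρ)
  · right; exact Perm.card_support_eq_two.mp h1

lemma swap_unique {f : Pr α → Bool} (hgood : ∀ ρ, Aut f ρ → ρ.support.card < 3)
    {i j k l : α} (hij : i ≠ j) (hkl : k ≠ l) (h1 : Aut f (swap i j)) (h2 : Aut f (swap k l)) :
    swap k l = swap i j := by
  have h3 := h1.mul h2
  rcases one_or_swap (hgood _ h3) with h | h
  · have : swap i j * (swap i j * swap k l) = swap i j * 1 := by rw [h]
    rw [← mul_assoc, swap_mul_self, one_mul, mul_one] at this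
    exact this
  · have hs : Perm.sign (swap i j * swap k l) = -1 := by
      obtain ⟨a, b, hab, he⟩ := h
      rw [he, Perm.sign_swap hab]
    rw [Perm.sign_mul, Perm.sign_swap hij, Perm.sign_swap hkl] at hs
    simp at hs

/-- the main pointwise identity -/
lemma pointwise {f : Pr α → Bool} (hS : ∃ σ, Anti f σ)
    (hgood : ∀ ρ, Aut f ρ → ρ.support.card < 3) :
    2 + (trip f).card = 2 * (invs f).card := by
  obtain ⟨σ, hσ⟩ := hS
  by_cases hA : ∃ i j, i ≠ j ∧ Aut f (swap i j)
  · obtain ⟨i, j, hij, ht⟩ := hA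
    -- automorphisms are 1 and t
    have hAut : ∀ ρ, Aut f ρ → ρ = 1 ∨ ρ = swap i j := by
      intro ρ hρ
      rcases one_or_swap (hgood _ hρ) with h | h
      · exact Or.inl h
      · obtain ⟨k, l, hkl, rfl⟩ := h
        exact Or.inr (swap_unique hgood hij hkl ht hρ)
    have hsq : ∀ τ, Anti f τ → τ * τ = 1 := by
      intro τ hτ
      rcases hAut _ (hτ.mul hτ) with h | h
      · exact h
      · exfalso
        have := sign_sq τ
        rw [h, Perm.sign_swap hij] at this
        exact absurd this (by decide)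
    -- there is an anti-automorphism fixing i and j
    have hex : ∃ τ, Anti f τ ∧ τ i = i ∧ τ j = j := by
      have hσt := hσ.mul_aut ht
      have h1 := hsq σ hσ
      have h2 := hsq _ hσt
      have hconj : swap (σ i) (σ j) = swap i j := by
        have h3 : σ * swap i j * σ⁻¹ = swap (σ i) (σ j) := by
          rw [mul_assoc, swap_mul_eq_mul_swap]; simp
        rw [← h3]
        have h4 : σ⁻¹ = σ := by
          rw [inv_eq_iff_mul_eq_one]; exact h1
        rw [h4]
        have h5 : (σ * swap i j * σ) * swap i j = 1 := by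
          rw [mul_assoc (σ * swap i j)]; exact h2
        have h6 := eq_inv_of_mul_eq_one_left h5
        rw [h6, swap_inv]
      have h7 : σ i = i ∨ σ i = j := by
        by_contra hcon
        push Not at hcon
        have h8 : swap (σ i) (σ j) (σ i) = swap i j (σ i) := by rw [hconj]
        rw [swap_apply_left, swap_apply_of_ne_of_ne hcon.1 hcon.2] at h8
        exact hij (σ.injective h8.symm)
      rcases h7 with h7 | h7
      · refine ⟨σ, hσ, h7, ?_⟩
        have h8 : swap (σ i) (σ j) (σ i) = swap i j (σ i) := by rw [hconj]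
        rw [swap_apply_left, h7, swap_apply_left] at h8
        exact h8
      · have h8 : swap (σ i) (σ j) (σ i) = swap i j (σ i) := by rw [hconj]
        rw [swap_apply_left, h7, swap_apply_right] at h8
        refine ⟨σ * swap i j, hσt, ?_, ?_⟩
        · simp [h8]
        · simp [h7]
    obtain ⟨τ, hτ, hτi, hτj⟩ := hex
    have hτ2 := hsq τ hτ
    have hne : τ ≠ τ * swap i j := by
      intro h
      have h1 : τ i = (τ * swap i j) i := by rw [← h]
      simp [hτi, hτj] at h1
      exact hij h1
    have hAnti : ∀ υ, Anti f υ → υ = τ ∨ υ = τ * swap i j := by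
      intro υ hυ
      have h1 : υ = τ * (τ * υ) := by rw [← mul_assoc, hτ2, one_mul]
      rcases hAut _ (hτ.mul hυ) with h | h
      · left; rw [h1, h, mul_one]
      · right; rw [h1, h]
    have hI : invs f = {τ, τ * swap i j} := by
      ext υ
      simp only [invs, mem_filter, mem_univ, true_and, mem_insert, mem_singleton]
      constructor
      · rintro ⟨h, _⟩; exact hAnti υ h
      · rintro (rfl | rfl)
        · exact ⟨hτ, hτ2⟩
        · exact ⟨hτ.mul_aut ht, hsq _ (hτ.mul_aut ht)⟩
    have hE : trip f = {(τ, i, j), (τ, j, i)} := by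
      ext ⟨υ, k, l⟩
      simp only [trip, mem_filter, mem_univ, true_and, mem_insert, mem_singleton, Prod.mk.injEq]
      constructor
      · rintro ⟨⟨h1, _⟩, ⟨hkl, hk, hl⟩, h2⟩
        have h3 := swap_unique hgood hij hkl ht h2
        have h4 : (k = i ∧ l = j) ∨ (k = j ∧ l = i) := by
          have h5 : swap k l k = swap i j k := by rw [h3]
          rw [swap_apply_left] at h5
          by_cases hki : k = i
          · left; subst hki
            rw [swap_apply_left] at h5
            exact ⟨rfl, h5⟩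
          · by_cases hkj : k = j
            · right; subst hkj
              rw [swap_apply_right] at h5
              exact ⟨rfl, h5⟩
            · rw [swap_apply_of_ne_of_ne hki hkj] at h5
              exact absurd h5.symm hkl
        have h5 : υ i = i := by
          rcases h4 with ⟨h, _⟩ | ⟨_, h⟩
          · rw [← h]; exact hk
          · rw [← h]; exact hl
        have h6 : υ = τ := by
          rcases hAnti υ h1 with h | h
          · exact h
          · exfalso
            rw [h] at h5
            simp [hτj] at h5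
            exact hij h5.symm
        rcases h4 with ⟨h, h'⟩ | ⟨h, h'⟩
        · left; exact ⟨h6, h, h'⟩
        · right; exact ⟨h6, h, h'⟩
      · rintro (⟨rfl, rfl, rfl⟩ | ⟨rfl, rfl, rfl⟩)
        · exact ⟨⟨hτ, hτ2⟩, ⟨hij, hτi, hτj⟩, ht⟩
        · exact ⟨⟨hτ, hτ2⟩, ⟨hij.symm, hτj, hτi⟩, by rw [swap_comm]; exact ht⟩
    rw [hI, hE, card_pair hne, card_pair]
    intro h
    simp only [Prod.mk.injEq, true_and] at h
    exact hij h.1
  · push Not at hA
    have hAut : ∀ ρ, Aut f ρ → ρ = 1 := by
      intro ρ hρ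
      rcases one_or_swap (hgood _ hρ) with h | h
      · exact h
      · obtain ⟨k, l, hkl, rfl⟩ := h
        exact absurd hρ (hA k l hkl)
    have hσ2 : σ * σ = 1 := hAut _ (hσ.mul hσ)
    have hI : invs f = {σ} := by
      ext υ
      simp only [invs, mem_filter, mem_univ, true_and, mem_singleton]
      constructor
      · rintro ⟨h, _⟩
        have h1 : υ = σ * (σ * υ) := by rw [← mul_assoc, hσ2, one_mul]
        rw [h1, hAut _ (hσ.mul h), mul_one]
      · rintro rfl
        exact ⟨hσ, hσ2⟩
    have hE : trip f = ∅ := by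
      rw [trip, filter_eq_empty_iff]
      rintro ⟨υ, k, l⟩ _ ⟨_, ⟨hkl, _, _⟩, h2⟩
      exact hA k l hkl h2
    rw [hI, hE]
    simp

end Pointwise

end Pool.Agent.Lib.MP_b5e4d4
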