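import Pool.Agent.Lib.MP_b5e4d4_co.Counts

set_option autoImplicit false

open Finset Equiv

noncomputable section

open Classical

namespace Pool.Agent.Lib.MP_b5e4d4

section Generic

variable {P : Type*} [Fintype P]

/-- the equivalence relation generated by two maps -/
def genSetoid (φ ρ : Perm P) : Setoid P := Relation.EqvGen.setoid fun x y => y = φ x ∨ y = ρ x

omit [Fintype P] in
lemma gen_left (φ ρ : Perm P) (x : P) : genSetoid φ ρ x (φ x) :=
  Relation.EqvGen.rel _ _ (Or.inl rfl)

omit [Fintype P] in
lemma gen_right (φ ρ : Perm P) (x : P) : genSetoid φ ρ x (ρ x) :=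
  Relation.EqvGen.rel _ _ (Or.inr rfl)

omit [Fintype P] in
lemma gen_trans {φ ρ : Perm P} {x y z : P} (h : genSetoid φ ρ x y) (h' : genSetoid φ ρ y z) :
    genSetoid φ ρ x z := (genSetoid φ ρ).trans h h'

lemma card_inv_le (φ ρ : Perm P) :
    (univ.filter fun f : P → Bool => (∀ x, f (φ x) = f x) ∧ (∀ x, f (ρ x) = f x)).card =
      2 ^ Fintype.card (Quotient (genSetoid φ ρ)) := by
  rw [← card_const (genSetoid φ ρ)]
  congr 1
  ext f
  simp only [mem_filter, mem_univ, true_and]
  constructor
  · rintro ⟨h, h'⟩ x y hxy
    induction hxy with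
    | rel a b hab =>
      rcases hab with rfl | rfl
      · exact (h a).symm
      · exact (h' a).symm
    | refl a => rfl
    | symm a b _ ih => exact ih.symm
    | trans a b c _ _ ih1 ih2 => exact ih1.trans ih2
  · intro h
    exact ⟨fun x => (h x _ (gen_left φ ρ x)).symm, fun x => (h x _ (gen_right φ ρ x)).symm⟩

/-- first bound: `φ` an involution, `good x` when `ρ x ∉ {x, φ x}` -/
lemma classes_le (φ ρ : Perm P) (hφ : φ * φ = 1) :
    4 * Fintype.card (Quotient (genSetoid φ ρ)) +
      (univ.filter fun x => ρ x ≠ x ∧ ρ x ≠ φ x).card ≤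
      2 * Fintype.card P + 2 * (univ.filter fun x => φ x = x).card := by
  have hφ2 : ∀ x, φ (φ x) = x := fun x => by
    rw [← Perm.mul_apply, hφ]; rfl
  have key := mul_card_quot_le (genSetoid φ ρ)
    (fun x => (2 + (if φ x = x then 2 else 0)) - (if ρ x ≠ x ∧ ρ x ≠ φ x then 1 else 0)) 4 ?_
  · have h1 : ∑ x : P, ((2 + (if φ x = x then 2 else 0)) -
        (if ρ x ≠ x ∧ ρ x ≠ φ x then 1 else 0)) + ∑ x : P, (if ρ x ≠ x ∧ ρ x ≠ φ x then 1 else 0)
        = ∑ x : P, (2 + (if φ x = x then 2 else 0)) := by
      rw [← sum_add_distrib]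
      refine sum_congr rfl fun x _ => ?_
      apply Nat.sub_add_cancel
      split_ifs <;> omega
    have h2 : ∑ x : P, (if ρ x ≠ x ∧ ρ x ≠ φ x then 1 else 0) =
        (univ.filter fun x => ρ x ≠ x ∧ ρ x ≠ φ x).card := by
      rw [sum_boole]; simp
    have h3 : ∑ x : P, (2 + (if φ x = x then 2 else 0)) =
        2 * Fintype.card P + 2 * (univ.filter fun x => φ x = x).card := by
      rw [sum_add_distrib]
      congr 1
      · simp [mul_comm]
      · rw [← sum_filter]; simp [mul_comm]
    rw [h2, h3] at h1
    omega
  · intro x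
    -- weight function
    set w : P → ℕ := fun x =>
      (2 + (if φ x = x then 2 else 0)) - (if ρ x ≠ x ∧ ρ x ≠ φ x then 1 else 0) with hw
    change (4 : ℕ) ≤ ∑ y ∈ univ.filter (fun y => genSetoid φ ρ x y), w y
    have hw1 : ∀ y, 1 ≤ w y := by
      intro y
      simp only [hw]
      split_ifs <;> omega
    have hw3 : ∀ y, φ y = y → 3 ≤ w y := by
      intro y hy
      simp only [hw, if_pos hy]
      split_ifs <;> omega
    have hsub : ∀ T : Finset P, (∀ y ∈ T, genSetoid φ ρ x y) →
        ∑ y ∈ T, w y ≤ ∑ y ∈ univ.filter (fun y => genSetoid φ ρ x y), w y := by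
      intro T hT
      refine sum_le_sum_of_subset fun y hy => ?_
      simp only [mem_filter, mem_univ, true_and]
      exact hT y hy
    by_cases hg : ∃ y, genSetoid φ ρ x y ∧ ρ y ≠ y ∧ ρ y ≠ φ y
    · obtain ⟨y, hy, hy1, hy2⟩ := hg
      have r1 : genSetoid φ ρ x (φ y) := gen_trans hy (gen_left φ ρ y)
      have r2 : genSetoid φ ρ x (ρ y) := gen_trans hy (gen_right φ ρ y)
      have r3 : genSetoid φ ρ x (φ (ρ y)) := gen_trans r2 (gen_left φ ρ _)
      by_cases h1 : φ y = y
      · have h2 := hsub {y, ρ y} (by
          intro z hz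
          simp only [mem_insert, mem_singleton] at hz
          rcases hz with rfl | rfl
          · exact hy
          · exact r2)
        rw [sum_pair (fun h => hy1 h.symm)] at h2
        have := hw3 y h1
        have := hw1 (ρ y)
        omega
      · by_cases h2 : φ (ρ y) = ρ y
        · have h3 := hsub {y, ρ y} (by
            intro z hz
            simp only [mem_insert, mem_singleton] at hz
            rcases hz with rfl | rfl
            · exact hy
            · exact r2)
          rw [sum_pair (fun h => hy1 h.symm)] at h3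
          have := hw3 (ρ y) h2
          have := hw1 y
          omega
        · have h3 := hsub {y, φ y, ρ y, φ (ρ y)} (by
            intro z hz
            simp only [mem_insert, mem_singleton] at hz
            rcases hz with rfl | rfl | rfl | rfl
            · exact hy
            · exact r1
            · exact r2
            · exact r3)
          have n3 : y ≠ φ (ρ y) := by
            intro h
            apply hy2
            conv_rhs => rw [h, hφ2]
          have n4 : φ y ≠ φ (ρ y) := fun h => hy1 (φ.injective h).symm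
          rw [sum_insert, sum_insert, sum_pair (fun h => h2 h.symm)] at h3
          · have := hw1 y
            have := hw1 (φ y)
            have := hw1 (ρ y)
            have := hw1 (φ (ρ y))
            omega
          · simp [n4, Ne.symm hy2]
          · simp only [mem_insert, mem_singleton, not_or]
            exact ⟨fun h => h1 h.symm, fun h => hy1 h.symm, n3⟩
    · push Not at hg
      have hng : ∀ y, genSetoid φ ρ x y → ¬ (ρ y ≠ y ∧ ρ y ≠ φ y) := by
        intro y hy hc
        exact hc.2 (hg y hy hc.1)
      have rx : genSetoid φ ρ x x := (genSetoid φ ρ).refl x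
      by_cases h1 : φ x = x
      · have h2 := hsub {x} (by
          intro z hz
          rw [mem_singleton] at hz
          rw [hz])
        rw [sum_singleton] at h2
        have h3 : w x = 4 := by
          simp only [hw, if_neg (hng x rx), if_pos h1]
        omega
      · have h2 := hsub {x, φ x} (by
          intro z hz
          simp only [mem_insert, mem_singleton] at hz
          rcases hz with rfl | rfl
          · exact rx
          · exact gen_left φ ρ x)
        rw [sum_pair (fun h => h1 h.symm)] at h2
        have h3 : w x = 2 := by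
          simp only [hw, if_neg (hng x rx), if_neg h1]
        have h4 : φ (φ x) ≠ φ x := fun h => h1 (φ.injective h)
        have h5 : w (φ x) = 2 := by
          simp only [hw, if_neg (hng _ (gen_left φ ρ x)), if_neg h4]
        omega

/-- second bound, for `ρ` of order three -/
lemma classes_le_three (φ ρ : Perm P) (hφ : φ * φ = 1) (hρ : ρ * ρ * ρ = 1) :
    6 * Fintype.card (Quotient (genSetoid φ ρ)) +
      2 * (univ.filter fun x => ρ x ≠ x ∧ φ x ≠ ρ x ∧ φ x ≠ ρ (ρ x) ∧ φ (ρ x) ≠ ρ (ρ x)).card ≤
      3 * Fintype.card P + 3 * (univ.filter fun x => φ x = x).card := by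
  have hφ2 : ∀ x, φ (φ x) = x := fun x => by
    rw [← Perm.mul_apply, hφ]; rfl
  have hρ3 : ∀ x, ρ (ρ (ρ x)) = x := fun x => by
    rw [← Perm.mul_apply, ← Perm.mul_apply, hρ]; rfl
  have key := mul_card_quot_le (genSetoid φ ρ)
    (fun x => (3 + (if φ x = x then 3 else 0)) -
      (if ρ x ≠ x ∧ φ x ≠ ρ x ∧ φ x ≠ ρ (ρ x) ∧ φ (ρ x) ≠ ρ (ρ x) then 2 else 0)) 6 ?_
  · have h1 : ∑ x : P, ((3 + (if φ x = x then 3 else 0)) -
        (if ρ x ≠ x ∧ φ x ≠ ρ x ∧ φ x ≠ ρ (ρ x) ∧ φ (ρ x) ≠ ρ (ρ x) then 2 else 0)) +
        ∑ x : P, (if ρ x ≠ x ∧ φ x ≠ ρ x ∧ φ x ≠ ρ (ρ x) ∧ φ (ρ x) ≠ ρ (ρ x) then 2 else 0)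
        = ∑ x : P, (3 + (if φ x = x then 3 else 0)) := by
      rw [← sum_add_distrib]
      refine sum_congr rfl fun x _ => ?_
      apply Nat.sub_add_cancel
      split_ifs <;> omega
    have h2 : ∑ x : P, (if ρ x ≠ x ∧ φ x ≠ ρ x ∧ φ x ≠ ρ (ρ x) ∧ φ (ρ x) ≠ ρ (ρ x)
        then 2 else 0) =
        2 * (univ.filter fun x =>
          ρ x ≠ x ∧ φ x ≠ ρ x ∧ φ x ≠ ρ (ρ x) ∧ φ (ρ x) ≠ ρ (ρ x)).card := by
      rw [← sum_filter]; simp [mul_comm]
    have h3 : ∑ x : P, (3 + (if φ x = x then 3 else 0)) =
        3 * Fintype.card P + 3 * (univ.filter fun x => φ x = x).card := by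
      rw [sum_add_distrib]
      congr 1
      · simp [mul_comm]
      · rw [← sum_filter]; simp [mul_comm]
    rw [h2, h3] at h1
    omega
  · intro x
    set w : P → ℕ := fun x => (3 + (if φ x = x then 3 else 0)) -
      (if ρ x ≠ x ∧ φ x ≠ ρ x ∧ φ x ≠ ρ (ρ x) ∧ φ (ρ x) ≠ ρ (ρ x) then 2 else 0) with hw
    change (6 : ℕ) ≤ ∑ y ∈ univ.filter (fun y => genSetoid φ ρ x y), w y
    have hw1 : ∀ y, 1 ≤ w y := by
      intro y
      simp only [hw]
      split_ifs <;> omega
    have hw3 : ∀ y, φ y = y → 4 ≤ w y := by
      intro y hy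
      simp only [hw, if_pos hy]
      split_ifs <;> omega
    have hsub : ∀ T : Finset P, (∀ y ∈ T, genSetoid φ ρ x y) →
        ∑ y ∈ T, w y ≤ ∑ y ∈ univ.filter (fun y => genSetoid φ ρ x y), w y := by
      intro T hT
      refine sum_le_sum_of_subset fun y hy => ?_
      simp only [mem_filter, mem_univ, true_and]
      exact hT y hy
    -- pairs `{y, φ y}` weigh at least 2
    have hpair : ∀ y, 2 ≤ ∑ z ∈ ({y, φ y} : Finset P), w z := by
      intro y
      by_cases h : φ y = y
      · rw [h]
        have := hw3 y h
        simp only [mem_singleton, insert_eq_of_mem, sum_singleton]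
        omega
      · rw [sum_pair (fun h' => h h'.symm)]
        have := hw1 y
        have := hw1 (φ y)
        omega
    by_cases hg : ∃ y, genSetoid φ ρ x y ∧
        (ρ y ≠ y ∧ φ y ≠ ρ y ∧ φ y ≠ ρ (ρ y) ∧ φ (ρ y) ≠ ρ (ρ y))
    · obtain ⟨y, hy, hy1, hy2, hy3, hy4⟩ := hg
      have r1 : genSetoid φ ρ x (ρ y) := gen_trans hy (gen_right φ ρ y)
      have r2 : genSetoid φ ρ x (ρ (ρ y)) := gen_trans r1 (gen_right φ ρ _)
      have h5 : ρ (ρ y) ≠ y := by
        intro h
        apply hy1
        have := hρ3 y
        rw [h] at this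
        exact this
      have h6 : ρ (ρ y) ≠ ρ y := fun h => hy1 (ρ.injective h)
      have d1 : Disjoint ({y, φ y} : Finset P) {ρ y, φ (ρ y)} := by
        rw [Finset.disjoint_left]
        intro z hz hz'
        simp only [mem_insert, mem_singleton] at hz hz'
        rcases hz with rfl | rfl
        · rcases hz' with h | h
          · exact hy1 h.symm
          · apply hy2; conv_lhs => rw [h, hφ2]
        · rcases hz' with h | h
          · exact hy2 h
          · exact hy1 (φ.injective h).symm
      have d2 : Disjoint (({y, φ y} : Finset P) ∪ {ρ y, φ (ρ y)})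
          {ρ (ρ y), φ (ρ (ρ y))} := by
        rw [Finset.disjoint_left]
        intro z hz hz'
        simp only [mem_union, mem_insert, mem_singleton] at hz hz'
        rcases hz with (rfl | rfl) | (rfl | rfl)
        · rcases hz' with h | h
          · exact h5 h.symm
          · apply hy3; conv_lhs => rw [h, hφ2]
        · rcases hz' with h | h
          · exact hy3 h
          · exact h5 (φ.injective h).symm
        · rcases hz' with h | h
          · exact h6 h.symm
          · apply hy4; conv_lhs => rw [h, hφ2]
        · rcases hz' with h | h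
          · exact hy4 h
          · exact h6 (φ.injective h).symm
      have h7 := hsub ((({y, φ y} : Finset P) ∪ {ρ y, φ (ρ y)}) ∪ {ρ (ρ y), φ (ρ (ρ y))}) (by
        intro z hz
        simp only [mem_union, mem_insert, mem_singleton] at hz
        rcases hz with ((rfl | rfl) | (rfl | rfl)) | (rfl | rfl)
        · exact hy
        · exact gen_trans hy (gen_left φ ρ _)
        · exact r1
        · exact gen_trans r1 (gen_left φ ρ _)
        · exact r2
        · exact gen_trans r2 (gen_left φ ρ _))
      rw [sum_union d2, sum_union d1] at h7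
      have := hpair y
      have := hpair (ρ y)
      have := hpair (ρ (ρ y))
      omega
    · have hng : ∀ y, genSetoid φ ρ x y →
          ¬ (ρ y ≠ y ∧ φ y ≠ ρ y ∧ φ y ≠ ρ (ρ y) ∧ φ (ρ y) ≠ ρ (ρ y)) := by
        intro y hy hc
        exact hg ⟨y, hy, hc⟩
      have rx : genSetoid φ ρ x x := (genSetoid φ ρ).refl x
      by_cases h1 : φ x = x
      · have h2 := hsub {x} (by
          intro z hz
          rw [mem_singleton] at hz
          rw [hz])
        rw [sum_singleton] at h2
        have h3 : w x = 6 := by
          simp only [hw, if_neg (hng x rx), if_pos h1]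
        omega
      · have h2 := hsub {x, φ x} (by
          intro z hz
          simp only [mem_insert, mem_singleton] at hz
          rcases hz with rfl | rfl
          · exact rx
          · exact gen_left φ ρ x)
        rw [sum_pair (fun h => h1 h.symm)] at h2
        have h3 : w x = 3 := by
          simp only [hw, if_neg (hng x rx), if_neg h1]
        have h4 : φ (φ x) ≠ φ x := fun h => h1 (φ.injective h)
        have h5 : w (φ x) = 3 := by
          simp only [hw, if_neg (hng _ (gen_left φ ρ x)), if_neg h4]
        omega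

lemma pow_two_order {Q : Type*} {g : Perm Q} {r : ℕ} (hg : g ^ (2 ^ r) = 1) {x : Q}
    (hx : g (g x) ≠ x) : g (g (g x)) ≠ x := by
  intro h
  -- `g^3 x = x` and `g^(2^r) x = x` give `g x = x`
  have h3 : (g ^ 3) x = x := by
    simpa [pow_succ, Perm.mul_apply] using h
  have hcop : Nat.Coprime 3 (2 ^ r) := by
    apply Nat.Coprime.pow_right; norm_num
  have h4 : g x = x := by
    have hz : ∀ n : ℕ, (g ^ (3 * n)) x = x := by
      intro n
      induction n with
      | zero => simp
      | succ n ih => rw [Nat.mul_succ, pow_add, Perm.mul_apply, h3, ih]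
    obtain ⟨m, n, hmn⟩ : ∃ m n : ℕ, 3 * m = 2 ^ r * n + 1 := by
      have h5 : (2 ^ r) % 3 = 1 ∨ (2 ^ r) % 3 = 2 := by
        have : ¬ (3 ∣ 2 ^ r) := by
          intro hd
          have := (Nat.prime_three).dvd_of_dvd_pow hd
          omega
        omega
      rcases h5 with h5 | h5
      · exact ⟨(2 ^ r * 2 + 1) / 3, 2, by omega⟩
      · exact ⟨(2 ^ r * 1 + 1) / 3, 1, by omega⟩
    have h6 := hz m
    rw [hmn, pow_succ', pow_mul, hg, one_pow, mul_one] at h6
    exact h6
  rw [h4, h4] at hx
  exact hx rfl

/-- third bound, for a permutation of 2-power order -/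
lemma classes_two_power (φ : Perm P) {r : ℕ} (hφ : φ ^ (2 ^ r) = 1) :
    4 * Fintype.card (Quotient (genSetoid φ φ)) ≤
      Fintype.card P + (univ.filter fun x => φ (φ x) = x).card +
        2 * (univ.filter fun x => φ x = x).card := by
  have key := mul_card_quot_le (genSetoid φ φ)
    (fun x => (1 + if φ (φ x) = x then 1 else 0) + if φ x = x then 2 else 0) 4 ?_
  · have h3 : ∑ x : P, ((1 + if φ (φ x) = x then 1 else 0) + if φ x = x then 2 else 0) =
        Fintype.card P + (univ.filter fun x => φ (φ x) = x).card +
        2 * (univ.filter fun x => φ x = x).card := by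
      rw [sum_add_distrib, sum_add_distrib]
      congr 1
      · congr 1
        · simp
        · rw [sum_boole]; simp
      · rw [← sum_filter]; simp [mul_comm]
    rw [h3] at key
    exact key
  · intro x
    set w : P → ℕ := fun x => (1 + if φ (φ x) = x then 1 else 0) + if φ x = x then 2 else 0
      with hw
    change (4 : ℕ) ≤ ∑ y ∈ univ.filter (fun y => genSetoid φ φ x y), w y
    have hw1 : ∀ y, 1 ≤ w y := by
      intro y
      simp only [hw]
      split_ifs <;> omega
    have hsub : ∀ T : Finset P, (∀ y ∈ T, genSetoid φ φ x y) →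
        ∑ y ∈ T, w y ≤ ∑ y ∈ univ.filter (fun y => genSetoid φ φ x y), w y := by
      intro T hT
      refine sum_le_sum_of_subset fun y hy => ?_
      simp only [mem_filter, mem_univ, true_and]
      exact hT y hy
    have rx : genSetoid φ φ x x := (genSetoid φ φ).refl x
    have r1 : genSetoid φ φ x (φ x) := gen_left φ φ x
    have r2 : genSetoid φ φ x (φ (φ x)) := gen_trans r1 (gen_left φ φ _)
    have r3 : genSetoid φ φ x (φ (φ (φ x))) := gen_trans r2 (gen_left φ φ _)
    by_cases h1 : φ x = x
    · have h2 := hsub {x} (by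
        intro z hz
        rw [mem_singleton] at hz
        rw [hz])
      rw [sum_singleton] at h2
      have h3 : w x = 4 := by
        simp only [hw, h1, if_true]
      omega
    · by_cases h2 : φ (φ x) = x
      · have h3 := hsub {x, φ x} (by
          intro z hz
          simp only [mem_insert, mem_singleton] at hz
          rcases hz with rfl | rfl
          · exact rx
          · exact r1)
        rw [sum_pair (fun h => h1 h.symm)] at h3
        have h4 : w x = 2 := by
          simp only [hw, if_pos h2, if_neg h1]
        have h5 : w (φ x) = 2 := by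
          simp only [hw]
          rw [if_pos (by rw [h2]), if_neg (by rw [h2]; exact fun h => h1 h.symm)]
        omega
      · have h3 := pow_two_order hφ h2
        have h4 := hsub {x, φ x, φ (φ x), φ (φ (φ x))} (by
          intro z hz
          simp only [mem_insert, mem_singleton] at hz
          rcases hz with rfl | rfl | rfl | rfl
          · exact rx
          · exact r1
          · exact r2
          · exact r3)
        have n1 : φ x ≠ φ (φ x) := fun h => h1 (φ.injective h).symm
        have n2 : φ x ≠ φ (φ (φ x)) := fun h => h2 (φ.injective h).symm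
        have n3 : φ (φ x) ≠ φ (φ (φ x)) := fun h => n1 (φ.injective h)
        rw [sum_insert, sum_insert, sum_pair n3] at h4
        · have := hw1 x
          have := hw1 (φ x)
          have := hw1 (φ (φ x))
          have := hw1 (φ (φ (φ x)))
          omega
        · simp [n1, n2]
        · simp only [mem_insert, mem_singleton, not_or]
          exact ⟨fun h => h1 h.symm, fun h => h2 h.symm, fun h => h3 h.symm⟩

end Generic

end Pool.Agent.Lib.MP_b5e4d4
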