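import Pool.Agent.Lib.MP_b5e4d4_co.Bounds

set_option autoImplicit false

open Finset Equiv

noncomputable section

open Classical

namespace Pool.Agent.Lib.MP_b5e4d4

variable {α : Type*} [Fintype α]

lemma arith_pm {p m : ℕ} (h : m ≤ p) :
    p * (p - 1) + m * m + m = (p - m) * (p - m - 1) + 2 * (p * m) := by
  obtain ⟨q, rfl⟩ := Nat.exists_eq_add_of_le h
  rw [Nat.add_sub_cancel_left]
  rcases Nat.eq_zero_or_pos q with rfl | hq
  · rcases Nat.eq_zero_or_pos m with rfl | hm
    · simp
    · obtain ⟨k, rfl⟩ : ∃ k, m = k + 1 := ⟨m - 1, by omega⟩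
      simp
      ring
  · obtain ⟨k, rfl⟩ : ∃ k, q = k + 1 := ⟨q - 1, by omega⟩
    have h1 : m + (k + 1) - 1 = m + k := by omega
    have h2 : k + 1 - 1 = k := by omega
    rw [h1, h2]
    ring

lemma card_fix_ph_inv' {σ : Perm α} (hσ : σ * σ = 1)
    (i : DecidablePred fun x : Pr α => ph σ x = x) :
    (@filter _ (fun x : Pr α => ph σ x = x) i univ).card = σ.support.card := by
  rw [← card_fix_ph_inv hσ]
  congr

lemma card_fix_ph' (σ : Perm α)
    (i : DecidablePred fun x : Pr α => ph σ x = x) :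
    (@filter _ (fun x : Pr α => ph σ x = x) i univ).card =
      (univ.filter fun u : α => σ (σ u) = u ∧ σ u ≠ u).card := by
  rw [← card_fix_ph]
  congr

lemma card_moved (ρ : Perm α) :
    (univ.filter fun x : Pr α => rh ρ x ≠ x).card + ρ.support.card * ρ.support.card +
      ρ.support.card = 2 * (Fintype.card α * ρ.support.card) := by
  have h1 := card_fix_rh ρ
  have h2 : (univ.filter fun x : Pr α => rh ρ x = x).card +
      (univ.filter fun x : Pr α => rh ρ x ≠ x).card = Fintype.card (Pr α) := by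
    rw [← card_univ, ← card_filter_add_card_filter_not (s := (univ : Finset (Pr α)))
      (p := fun x : Pr α => rh ρ x = x)]
  rw [card_pr, h1] at h2
  have h3 : ρ.support.card ≤ Fintype.card α := card_le_univ _
  have h4 := arith_pm h3
  omega

lemma card_coinc (σ ρ : Perm α) :
    (univ.filter fun x : Pr α => rh ρ x ≠ x ∧ rh ρ x = ph σ x).card ≤ 2 * ρ.support.card := by
  have hsub : (univ.filter fun x : Pr α => rh ρ x ≠ x ∧ rh ρ x = ph σ x) ⊆
      (univ.filter fun x : Pr α => x.1.1 ∈ ρ.support ∧ rh ρ x = ph σ x) ∪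
      (univ.filter fun x : Pr α => x.1.2 ∈ ρ.support ∧ rh ρ x = ph σ x) := by
    intro x hx
    simp only [mem_filter, mem_univ, true_and, mem_union, Perm.mem_support] at hx ⊢
    by_cases h : ρ x.1.1 = x.1.1
    · right
      refine ⟨fun h' => hx.1 (pr_ext h h'), hx.2⟩
    · left; exact ⟨h, hx.2⟩
  have h1 : (univ.filter fun x : Pr α => x.1.1 ∈ ρ.support ∧ rh ρ x = ph σ x).card ≤
      ρ.support.card := by
    refine card_le_card_of_injOn (fun x => x.1.1) ?_ ?_
    · intro x hx
      simp only [coe_filter, mem_univ, true_and, Set.mem_ofPred_eq] at hx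
      exact hx.1
    · intro x hx y hy hxy
      simp only [coe_filter, mem_univ, true_and, Set.mem_ofPred_eq, pr_eq_iff, rh_fst, rh_snd,
        ph_fst, ph_snd] at hx hy
      simp only at hxy
      apply pr_ext hxy
      apply σ.injective
      rw [← hx.2.1, ← hy.2.1, hxy]
  have h2 : (univ.filter fun x : Pr α => x.1.2 ∈ ρ.support ∧ rh ρ x = ph σ x).card ≤
      ρ.support.card := by
    refine card_le_card_of_injOn (fun x => x.1.2) ?_ ?_
    · intro x hx
      simp only [coe_filter, mem_univ, true_and, Set.mem_ofPred_eq] at hx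
      exact hx.1
    · intro x hx y hy hxy
      simp only [coe_filter, mem_univ, true_and, Set.mem_ofPred_eq, pr_eq_iff, rh_fst, rh_snd,
        ph_fst, ph_snd] at hx hy
      simp only at hxy
      refine pr_ext ?_ hxy
      apply σ.injective
      rw [← hx.2.2, ← hy.2.2, hxy]
  have h3 := (card_le_card hsub).trans (card_union_le _ _)
  omega

/-- the digraphs with anti-automorphism `σ` and automorphism `ρ` -/
def fixAB (σ ρ : Perm α) : Finset (Pr α → Bool) := univ.filter fun f => Anti f σ ∧ Aut f ρ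

lemma card_fixAB_eq (σ ρ : Perm α) :
    (fixAB σ ρ).card = 2 ^ Fintype.card (Quotient (genSetoid (ph σ) (rh ρ))) := by
  have h := card_inv_le (ph σ) (rh ρ)
  rw [← h, fixAB]
  congr
  exact Subsingleton.elim _ _

/-- number of pairs, halved, plus number of 2-cycles -/
lemma fixAB_bound {σ : Perm α} (hσ : σ * σ = 1) (ρ : Perm α) :
    ∃ c : ℕ, (fixAB σ ρ).card = 2 ^ c ∧
      4 * c + 2 * (Fintype.card α * ρ.support.card) ≤
        2 * (Fintype.card α * (Fintype.card α - 1)) + 2 * σ.support.card +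
          ρ.support.card * ρ.support.card + 3 * ρ.support.card := by
  refine ⟨_, card_fixAB_eq σ ρ, ?_⟩
  have h1 : 4 * Fintype.card (Quotient (genSetoid (ph σ) (rh ρ))) +
      (univ.filter fun x : Pr α => rh ρ x ≠ x ∧ rh ρ x ≠ ph σ x).card ≤
      2 * Fintype.card (Pr α) + 2 * (univ.filter fun x : Pr α => ph σ x = x).card := by
    have h := classes_le (ph σ) (rh ρ) (by rw [ph_mul_ph, hσ, map_one])
    convert h
  have h2 := card_moved ρ
  have h3 := card_coinc σ ρ
  have h4 : (univ.filter fun x : Pr α => rh ρ x ≠ x).card =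
      (univ.filter fun x : Pr α => rh ρ x ≠ x ∧ rh ρ x = ph σ x).card +
      (univ.filter fun x : Pr α => rh ρ x ≠ x ∧ rh ρ x ≠ ph σ x).card := by
    rw [← card_filter_add_card_filter_not (s := univ.filter fun x : Pr α => rh ρ x ≠ x)
      (p := fun x : Pr α => rh ρ x = ph σ x), filter_filter, filter_filter]
  rw [card_fix_ph_inv' hσ, card_pr] at h1
  omega

lemma cube_of_card_three {ρ : Perm α} (h : ρ.support.card = 3) : ρ * ρ * ρ = 1 := by
  have h1 : ρ.IsThreeCycle := card_support_eq_three_iff.mp h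
  have h2 := h1.orderOf
  have h3 := pow_orderOf_eq_one ρ
  rw [h2] at h3
  rw [← h3, pow_succ, pow_two]

lemma support_sq_card_three {ρ : Perm α} (h : ρ.support.card = 3) :
    (ρ * ρ).support.card = 3 := by
  have h3 := cube_of_card_three h
  have h4 : ρ * ρ = ρ⁻¹ := eq_inv_of_mul_eq_one_left h3
  rw [h4, Perm.support_inv, h]

lemma fixAB_bound_three {σ : Perm α} (hσ : σ * σ = 1) {ρ : Perm α} (hρ : ρ.support.card = 3) :
    ∃ c : ℕ, (fixAB σ ρ).card = 2 ^ c ∧
      6 * c + 12 * Fintype.card α ≤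
        3 * (Fintype.card α * (Fintype.card α - 1)) + 3 * σ.support.card + 60 := by
  refine ⟨_, card_fixAB_eq σ ρ, ?_⟩
  have hcube := cube_of_card_three hρ
  have h1 : 6 * Fintype.card (Quotient (genSetoid (ph σ) (rh ρ))) +
      2 * (univ.filter fun x : Pr α => rh ρ x ≠ x ∧ ph σ x ≠ rh ρ x ∧ ph σ x ≠ rh ρ (rh ρ x) ∧
        ph σ (rh ρ x) ≠ rh ρ (rh ρ x)).card ≤
      3 * Fintype.card (Pr α) + 3 * (univ.filter fun x : Pr α => ph σ x = x).card := by
    have h := classes_le_three (ph σ) (rh ρ) (by rw [ph_mul_ph, hσ, map_one])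
      (by rw [← map_mul, ← map_mul, hcube, map_one])
    convert h
  have h2 := card_moved ρ
  have hρ3 : ∀ x, rh ρ (rh ρ (rh ρ x)) = x := by
    intro x
    have : (rh ρ * rh ρ * rh ρ) x = x := by
      rw [← map_mul, ← map_mul, hcube, map_one]; rfl
    exact this
  -- three bad sets
  have b1 := card_coinc σ ρ
  have b2 := card_coinc σ (ρ * ρ)
  rw [support_sq_card_three hρ] at b2
  have b3 : (univ.filter fun x : Pr α => rh ρ x ≠ x ∧ ph σ (rh ρ x) = rh ρ (rh ρ x)).card ≤
      (univ.filter fun x : Pr α => rh ρ x ≠ x ∧ rh ρ x = ph σ x).card := by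
    refine card_le_card_of_injOn (fun x => rh ρ x) ?_ ?_
    · intro x hx
      simp only [coe_filter, mem_univ, true_and, Set.mem_ofPred_eq] at hx ⊢
      refine ⟨fun h => hx.1 ((rh ρ).injective h), hx.2.symm⟩
    · intro x _ y _ hxy
      exact (rh ρ).injective hxy
  have hsub : (univ.filter fun x : Pr α => rh ρ x ≠ x) ⊆
      ((univ.filter fun x : Pr α => rh ρ x ≠ x ∧ ph σ x ≠ rh ρ x ∧ ph σ x ≠ rh ρ (rh ρ x) ∧
        ph σ (rh ρ x) ≠ rh ρ (rh ρ x)) ∪
      (univ.filter fun x : Pr α => rh ρ x ≠ x ∧ rh ρ x = ph σ x)) ∪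
      ((univ.filter fun x : Pr α => rh (ρ * ρ) x ≠ x ∧ rh (ρ * ρ) x = ph σ x) ∪
      (univ.filter fun x : Pr α => rh ρ x ≠ x ∧ ph σ (rh ρ x) = rh ρ (rh ρ x))) := by
    intro x hx
    simp only [mem_filter, mem_univ, true_and, mem_union] at hx ⊢
    have hx2 : rh ρ (rh ρ x) ≠ x := by
      intro h
      have := hρ3 x
      rw [h] at this
      exact hx this
    have e : rh (ρ * ρ) x = rh ρ (rh ρ x) := by rw [map_mul]; rfl
    rw [e]
    by_cases c1 : rh ρ x = ph σ x
    · left; right; exact ⟨hx, c1⟩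
    · by_cases c2 : rh ρ (rh ρ x) = ph σ x
      · right; left; exact ⟨hx2, c2⟩
      · by_cases c3 : ph σ (rh ρ x) = rh ρ (rh ρ x)
        · right; right; exact ⟨hx, c3⟩
        · left; left; exact ⟨hx, fun h => c1 h.symm, fun h => c2 h.symm, c3⟩
  have h3 := (card_le_card hsub).trans ((card_union_le _ _).trans
    (add_le_add (card_union_le _ _) (card_union_le _ _)))
  rw [card_fix_ph_inv' hσ, card_pr] at h1
  rw [hρ] at h2 b1
  omega

lemma fixA_bound {σ : Perm α} {r : ℕ} (hσ : σ ^ (2 ^ r) = 1) :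
    ∃ c : ℕ, (fixA σ).card = 2 ^ c ∧
      4 * c + 2 * (Fintype.card α * (σ * σ).support.card) ≤
        2 * (Fintype.card α * (Fintype.card α - 1)) +
          (σ * σ).support.card * (σ * σ).support.card + (σ * σ).support.card +
          2 * (univ.filter fun u : α => σ (σ u) = u ∧ σ u ≠ u).card := by
  refine ⟨Fintype.card (Quotient (genSetoid (ph σ) (ph σ))), ?_, ?_⟩
  · have h := card_inv_le (ph σ) (ph σ)
    rw [← h, fixA]
    congr 1
    ext f
    simp [Anti]
  · have hφ : (ph σ) ^ (2 ^ (r + 1)) = 1 := by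
      rw [pow_succ', pow_mul, pow_two, ph_mul_ph, ← map_pow, ← pow_two, ← pow_mul, mul_comm,
        pow_mul, hσ, one_pow, map_one]
    have h1 := classes_two_power (ph σ) hφ
    have h2 : ∀ (i : DecidablePred fun x : Pr α => ph σ (ph σ x) = x),
        (@filter _ (fun x : Pr α => ph σ (ph σ x) = x) i univ).card =
        (Fintype.card α - (σ * σ).support.card) *
          (Fintype.card α - (σ * σ).support.card - 1) := by
      intro i
      rw [← card_fix_rh]
      have e : ∀ x : Pr α, ph σ (ph σ x) = rh (σ * σ) x := fun x => by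
        rw [← ph_mul_ph]; rfl
      simp only [e]
    have h3 : (σ * σ).support.card ≤ Fintype.card α := card_le_univ _
    have h4 := arith_pm h3
    rw [h2, card_fix_ph', card_pr] at h1
    omega

lemma four_le_support {σ : Perm α} {r : ℕ} (hσ : σ ^ (2 ^ r) = 1) (hne : σ * σ ≠ 1) :
    4 ≤ (σ * σ).support.card := by
  have h1 : ∃ u, (σ * σ) u ≠ u := by
    by_contra h
    push Not at h
    exact hne (Perm.ext h)
  obtain ⟨u, hu⟩ := h1
  have hu2 : σ (σ u) ≠ u := hu
  have h3 := pow_two_order hσ hu2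
  have h1' : σ u ≠ u := by
    intro h; rw [h, h] at hu2; exact hu2 rfl
  have hsub : ({u, σ u, σ (σ u), σ (σ (σ u))} : Finset α) ⊆ (σ * σ).support := by
    intro z hz
    simp only [mem_insert, mem_singleton] at hz
    rw [Perm.mem_support, Perm.mul_apply]
    rcases hz with rfl | rfl | rfl | rfl
    · exact hu2
    · exact fun h => hu2 (σ.injective h)
    · exact fun h => hu2 (σ.injective (σ.injective h))
    · exact fun h => hu2 (σ.injective (σ.injective (σ.injective h)))
  have hcard : ({u, σ u, σ (σ u), σ (σ (σ u))} : Finset α).card = 4 := by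
    have n1 : σ u ≠ σ (σ u) := fun h => h1' (σ.injective h).symm
    have n2 : σ u ≠ σ (σ (σ u)) := fun h => hu2 (σ.injective h).symm
    have n3 : σ (σ u) ≠ σ (σ (σ u)) := fun h => n1 (σ.injective h)
    rw [card_insert_of_notMem, card_insert_of_notMem, card_pair n3]
    · simp [n1, n2]
    · simp only [mem_insert, mem_singleton, not_or]
      exact ⟨fun h => h1' h.symm, fun h => hu2 h.symm, fun h => h3 h.symm⟩
  rw [← hcard]
  exact card_le_card hsub

lemma card_perm_support_le (m : ℕ) :
    (univ.filter fun ρ : Perm α => ρ.support.card = m).card ≤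
      (Fintype.card α).choose m * m.factorial := by
  have hsub : (univ.filter fun ρ : Perm α => ρ.support.card = m) ⊆
      (powersetCard m (univ : Finset α)).biUnion
        (fun M => univ.filter fun ρ : Perm α => ∀ a, ¬ (a ∈ M) → ρ a = a) := by
    intro ρ hρ
    simp only [mem_filter, mem_univ, true_and] at hρ
    simp only [mem_biUnion, mem_powersetCard, subset_univ, true_and, mem_filter, mem_univ]
    refine ⟨ρ.support, hρ, fun a ha => ?_⟩
    rw [Perm.mem_support, not_not] at ha
    exact ha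
  refine (card_le_card hsub).trans (card_biUnion_le.trans ?_)
  have h1 : ∀ M ∈ powersetCard m (univ : Finset α),
      (univ.filter fun ρ : Perm α => ∀ a, ¬ (a ∈ M) → ρ a = a).card = m.factorial := by
    intro M hM
    rw [mem_powersetCard] at hM
    rw [← Fintype.card_subtype,
      ← Fintype.card_congr (Perm.subtypeEquivSubtypePerm (fun a => a ∈ M)), Fintype.card_perm]
    simp [hM.2]
  rw [sum_congr rfl h1, sum_const, card_powersetCard, card_univ, smul_eq_mul]

lemma choose_mul_factorial_le (p m : ℕ) : p.choose m * m.factorial ≤ p ^ m := by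
  rw [mul_comm, ← Nat.descFactorial_eq_factorial_mul_choose]
  exact Nat.descFactorial_le_pow p m

/-- restriction to the part moved by `σ²` and the rest -/
lemma sum_support_sq (M : Finset α) (g : ℕ → ℝ) (hg : ∀ n, 0 ≤ g n) :
    ∑ σ ∈ univ.filter (fun σ : Perm α => (σ * σ).support = M),
      g ((univ.filter fun u : α => σ (σ u) = u ∧ σ u ≠ u).card) ≤
    (M.card.factorial : ℝ) *
      ∑ υ ∈ univ.filter (fun υ : Perm {a // ¬ (a ∈ M)} => υ * υ = 1), g (υ.support.card) := by
  have hM : ∀ σ : Perm α, (σ * σ).support = M → ∀ x, σ x ∈ M ↔ x ∈ M := by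
    intro σ h x
    rw [← h, Perm.mem_support, Perm.mem_support, Perm.mul_apply, Perm.mul_apply]
    constructor
    · intro h1 h2; exact h1 (by rw [h2])
    · intro h1 h2; exact h1 (σ.injective h2)
  let F : Perm α → Perm {a // a ∈ M} × Perm {a // ¬ (a ∈ M)} := fun σ =>
    if h : ∀ x, σ x ∈ M ↔ x ∈ M then
      (σ.subtypePerm h, σ.subtypePerm (fun x => not_congr (h x))) else (1, 1)
  have hF : ∀ σ : Perm α, (σ * σ).support = M → ∃ h : ∀ x, σ x ∈ M ↔ x ∈ M,
      F σ = (σ.subtypePerm h, σ.subtypePerm (fun x => not_congr (h x))) := by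
    intro σ h
    refine ⟨hM σ h, ?_⟩
    simp only [F]
    rw [dif_pos (hM σ h)]
  have hinj : Set.InjOn F (univ.filter (fun σ : Perm α => (σ * σ).support = M) : Finset (Perm α)) := by
    intro σ hσ τ hτ he
    simp only [coe_filter, mem_univ, true_and, Set.mem_ofPred_eq] at hσ hτ
    obtain ⟨h1, e1⟩ := hF σ hσ
    obtain ⟨h2, e2⟩ := hF τ hτ
    rw [e1, e2, Prod.mk.injEq] at he
    ext x
    by_cases hx : x ∈ M
    · have := congrArg (fun π : Perm {a // a ∈ M} => (π ⟨x, hx⟩ : α)) he.1
      simpa using this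
    · have := congrArg (fun π : Perm {a // ¬ (a ∈ M)} => (π ⟨x, hx⟩ : α)) he.2
      simpa using this
  have hval : ∀ σ ∈ univ.filter (fun σ : Perm α => (σ * σ).support = M),
      g ((univ.filter fun u : α => σ (σ u) = u ∧ σ u ≠ u).card) = g ((F σ).2.support.card) := by
    intro σ hσ
    simp only [mem_filter, mem_univ, true_and] at hσ
    obtain ⟨h1, e1⟩ := hF σ hσ
    rw [e1]
    congr 1
    symm
    refine card_bij (fun x _ => (x : α)) ?_ ?_ ?_
    · intro x hx
      simp only [Perm.mem_support, mem_filter, mem_univ, true_and] at hx ⊢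
      have hx1 : (x : α) ∉ (σ * σ).support := by rw [hσ]; exact x.2
      rw [Perm.mem_support, not_not, Perm.mul_apply] at hx1
      refine ⟨hx1, fun h => hx (Subtype.ext h)⟩
    · intro x _ y _ h
      exact Subtype.ext h
    · intro u hu
      simp only [mem_filter, mem_univ, true_and] at hu
      have huM : ¬ (u ∈ M) := by
        rw [← hσ, Perm.mem_support, not_not, Perm.mul_apply]; exact hu.1
      refine ⟨⟨u, huM⟩, ?_, rfl⟩
      rw [Perm.mem_support]
      intro h
      exact hu.2 (congrArg Subtype.val h)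
  rw [sum_congr rfl hval]
  have h1 : ∑ σ ∈ univ.filter (fun σ : Perm α => (σ * σ).support = M), g ((F σ).2.support.card)
      = ∑ y ∈ (univ.filter (fun σ : Perm α => (σ * σ).support = M)).image F,
          g (y.2.support.card) := by
    rw [sum_image hinj]
  rw [h1]
  have h2 : (univ.filter (fun σ : Perm α => (σ * σ).support = M)).image F ⊆
      (univ : Finset (Perm {a // a ∈ M})) ×ˢ
        (univ.filter (fun υ : Perm {a // ¬ (a ∈ M)} => υ * υ = 1)) := by
    intro y hy
    rw [mem_image] at hy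
    obtain ⟨σ, hσ, rfl⟩ := hy
    simp only [mem_filter, mem_univ, true_and] at hσ
    obtain ⟨h1, e1⟩ := hF σ hσ
    rw [e1]
    simp only [mem_product, mem_univ, mem_filter, true_and]
    ext x
    have hx1 : (x : α) ∉ (σ * σ).support := by rw [hσ]; exact x.2
    rw [Perm.mem_support, not_not] at hx1
    exact hx1
  refine (sum_le_sum_of_subset_of_nonneg h2 (fun y _ _ => hg _)).trans (le_of_eq ?_)
  rw [sum_product]
  simp only [sum_const, card_univ, Fintype.card_perm, nsmul_eq_mul]
  congr 2
  simp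

end Pool.Agent.Lib.MP_b5e4d4
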