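import Pool.Agent.Lib.MP_b5e4d4_co.Basic

set_option autoImplicit false

open Finset Equiv

noncomputable section

open Classical

namespace Pool.Agent.Lib.MP_b5e4d4

section Generic

variable {P : Type*} [Fintype P]

lemma card_inv_one (φ : Perm P) (hφ : φ * φ = 1) :
    ∃ c : ℕ, (univ.filter fun f : P → Bool => ∀ x, f (φ x) = f x).card = 2 ^ c ∧
      2 * c = Fintype.card P + (univ.filter fun x => φ x = x).card := by
  have hφ2 : ∀ x, φ (φ x) = x := fun x => by
    rw [← Perm.mul_apply, hφ]; rfl
  let s : Setoid P :=
    { r := fun x y => y = x ∨ y = φ x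
      iseqv :=
        { refl := fun x => Or.inl rfl
          symm := fun {x y} h => by
            rcases h with rfl | rfl
            · exact Or.inl rfl
            · exact Or.inr (hφ2 x).symm
          trans := fun {x y z} h h' => by
            rcases h with rfl | rfl
            · exact h'
            · rcases h' with rfl | rfl
              · exact Or.inr rfl
              · left; exact hφ2 x } }
  have hs : ∀ x y, s x y ↔ (y = x ∨ y = φ x) := fun x y => Iff.rfl
  refine ⟨Fintype.card (Quotient s), ?_, ?_⟩
  · rw [← card_const s]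
    congr 1
    ext f
    simp only [mem_filter, mem_univ, true_and, hs]
    constructor
    · intro h x y hxy
      rcases hxy with rfl | rfl
      · rfl
      · exact (h x).symm
    · intro h x
      exact (h x (φ x) (Or.inr rfl)).symm
  · rw [mul_card_quot_eq s (fun x => 1 + if φ x = x then 1 else 0) 2]
    · rw [sum_add_distrib, sum_boole]
      simp
    · intro x
      have hcl : (univ.filter fun y => s x y) = {x, φ x} := by
        ext y; simp [hs]
      rw [hcl]
      by_cases h : φ x = x
      · simp [h]
      · rw [sum_pair (fun h' => h h'.symm)]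
        simp [h, hφ2, Ne.symm h]

lemma card_inv_two (φ ρ : Perm P) (hφ : φ * φ = 1) (hρ : ρ * ρ = 1) (hc : φ * ρ = ρ * φ) :
    ∃ c : ℕ, (univ.filter fun f : P → Bool => (∀ x, f (φ x) = f x) ∧
        (∀ x, f (ρ x) = f x)).card = 2 ^ c ∧
      4 * c = Fintype.card P + (univ.filter fun x => φ x = x).card +
        (univ.filter fun x => ρ x = x).card + (univ.filter fun x => φ (ρ x) = x).card := by
  have hφ2 : ∀ x, φ (φ x) = x := fun x => by
    rw [← Perm.mul_apply, hφ]; rfl
  have hρ2 : ∀ x, ρ (ρ x) = x := fun x => by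
    rw [← Perm.mul_apply, hρ]; rfl
  have hc2 : ∀ x, ρ (φ x) = φ (ρ x) := fun x => by
    rw [← Perm.mul_apply, ← hc]; rfl
  let s : Setoid P :=
    { r := fun x y => y = x ∨ y = φ x ∨ y = ρ x ∨ y = φ (ρ x)
      iseqv :=
        { refl := fun x => Or.inl rfl
          symm := fun {x y} h => by
            rcases h with rfl | rfl | rfl | rfl
            · exact Or.inl rfl
            · exact Or.inr (Or.inl (hφ2 x).symm)
            · exact Or.inr (Or.inr (Or.inl (hρ2 x).symm))
            · refine Or.inr (Or.inr (Or.inr ?_))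
              rw [hc2, hφ2, hρ2]
          trans := fun {x y z} h h' => by
            rcases h with rfl | rfl | rfl | rfl
            · exact h'
            · rcases h' with rfl | rfl | rfl | rfl
              · exact Or.inr (Or.inl rfl)
              · left; exact hφ2 x
              · exact Or.inr (Or.inr (Or.inr (hc2 x)))
              · refine Or.inr (Or.inr (Or.inl ?_))
                rw [hc2, hφ2]
            · rcases h' with rfl | rfl | rfl | rfl
              · exact Or.inr (Or.inr (Or.inl rfl))
              · exact Or.inr (Or.inr (Or.inr rfl))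
              · left; exact hρ2 x
              · refine Or.inr (Or.inl ?_)
                rw [hρ2]
            · rcases h' with rfl | rfl | rfl | rfl
              · exact Or.inr (Or.inr (Or.inr rfl))
              · refine Or.inr (Or.inr (Or.inl ?_))
                rw [hφ2]
              · refine Or.inr (Or.inl ?_)
                rw [hc2, hρ2]
              · left; rw [hc2, hρ2, hφ2] } }
  have hs : ∀ x y, s x y ↔ (y = x ∨ y = φ x ∨ y = ρ x ∨ y = φ (ρ x)) := fun x y => Iff.rfl
  refine ⟨Fintype.card (Quotient s), ?_, ?_⟩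
  · rw [← card_const s]
    congr 1
    ext f
    simp only [mem_filter, mem_univ, true_and, hs]
    constructor
    · rintro ⟨h, h'⟩ x y hxy
      rcases hxy with rfl | rfl | rfl | rfl
      · rfl
      · exact (h x).symm
      · exact (h' x).symm
      · rw [h, h']
    · intro h
      exact ⟨fun x => (h x (φ x) (by tauto)).symm, fun x => (h x (ρ x) (by tauto)).symm⟩
  · rw [mul_card_quot_eq s (fun x => ((1 + if φ x = x then 1 else 0) + if ρ x = x then 1 else 0)
      + if φ (ρ x) = x then 1 else 0) 4]
    · rw [sum_add_distrib, sum_add_distrib, sum_add_distrib, sum_boole, sum_boole, sum_boole]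
      simp
    · intro x
      have hcl : (univ.filter fun y => s x y) = {x, φ x, ρ x, φ (ρ x)} := by
        ext y; simp [hs]
      rw [hcl]
      by_cases h1 : φ x = x
      · by_cases h2 : ρ x = x
        · simp [h1, h2]
        · have h3 : φ (ρ x) = ρ x := by rw [← hc2, h1]
          have h4 : ({x, φ x, ρ x, φ (ρ x)} : Finset P) = {x, ρ x} := by
            rw [h3, h1]; simp
          rw [h4, sum_pair (fun h' => h2 h'.symm)]
          simp only [h1, h2, h3, hρ2, Ne.symm h2, if_true, if_false]
      · by_cases h2 : ρ x = x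
        · have h3 : ρ (φ x) = φ x := by rw [hc2, h2]
          have h4 : ({x, φ x, ρ x, φ (ρ x)} : Finset P) = {x, φ x} := by
            rw [h2]; ext y; simp
          rw [h4, sum_pair (fun h' => h1 h'.symm)]
          simp only [h1, h2, h3, hφ2, Ne.symm h1, if_true, if_false]
        · by_cases h3 : φ (ρ x) = x
          · have h5 : φ x = ρ x := by
              conv_lhs => rw [← h3, hφ2]
            have h4 : ({x, φ x, ρ x, φ (ρ x)} : Finset P) = {x, φ x} := by
              rw [h3, ← h5]; ext y; simp only [mem_insert, mem_singleton]; tauto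
            rw [h4, sum_pair (fun h' => h1 h'.symm)]
            have h6 : ρ (φ x) = x := by rw [hc2, h3]
            simp only [h1, h2, h3, hφ2, h6, Ne.symm h1, if_true, if_false]
          · have h5 : φ x ≠ ρ x := by
              intro h; apply h3; rw [← h, hφ2]
            have n1 : x ≠ φ x := fun h => h1 h.symm
            have n2 : x ≠ ρ x := fun h => h2 h.symm
            have n3 : x ≠ φ (ρ x) := fun h => h3 h.symm
            have n4 : φ x ≠ φ (ρ x) := fun h => n2 (φ.injective h)
            have n5 : ρ x ≠ φ (ρ x) := by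
              intro h
              apply n1
              apply ρ.injective
              rw [hc2]; exact h
            rw [sum_insert, sum_insert, sum_pair n5]
            · have m1 : ρ (φ x) ≠ φ x := by rw [hc2]; exact fun h => n4 h.symm
              have m2 : φ (ρ (φ x)) ≠ φ x := by
                rw [hc2, hφ2]; exact fun h => h5 h.symm
              have m3 : φ (ρ (ρ x)) ≠ ρ x := by rw [hρ2]; exact h5
              have m4 : ρ (φ (ρ x)) ≠ φ (ρ x) := by
                rw [hc2, hρ2]; exact n4
              have m5 : φ (ρ (φ (ρ x))) ≠ φ (ρ x) := by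
                rw [hc2, hρ2, hφ2]; exact n3
              simp only [h1, h2, h3, hφ2, hρ2, m1, m2, m4, m5, n1, n2, n5, h5, Ne.symm n5,
                if_false]
              norm_num
            · simp [n4, h5]
            · simp [n1, n2, n3]

end Generic

section Pairs

variable {α : Type*} [Fintype α]

lemma card_pr : Fintype.card (Pr α) = Fintype.card α * (Fintype.card α - 1) := by
  have h := Finset.offDiag_card (univ : Finset α)
  have h2 : Fintype.card (Pr α) = (univ : Finset α).offDiag.card := by
    rw [Fintype.card_subtype]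
    congr 1
    ext x
    simp
  rw [h2, h, card_univ, Nat.mul_sub, mul_one]

lemma card_fix_rh (ρ : Perm α) :
    (univ.filter fun x : Pr α => rh ρ x = x).card =
      (Fintype.card α - ρ.support.card) * (Fintype.card α - ρ.support.card - 1) := by
  have h1 : (univ.filter fun x : Pr α => rh ρ x = x).card = (ρ.support)ᶜ.offDiag.card := by
    refine card_bij (fun x _ => x.1) ?_ ?_ ?_
    · intro x hx
      simp only [mem_filter, mem_univ, true_and, pr_eq_iff, rh_fst, rh_snd] at hx
      simp only [mem_offDiag, mem_compl, Perm.mem_support, not_not]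
      exact ⟨hx.1, hx.2, x.2⟩
    · intro x _ y _ h
      exact Subtype.ext h
    · intro b hb
      simp only [mem_offDiag, mem_compl, Perm.mem_support, not_not] at hb
      refine ⟨⟨b, hb.2.2⟩, ?_, rfl⟩
      simp only [mem_filter, mem_univ, true_and, pr_eq_iff, rh_fst, rh_snd]
      exact ⟨hb.1, hb.2.1⟩
  rw [h1, offDiag_card, card_compl]
  conv_rhs => rw [Nat.mul_sub, mul_one]

lemma card_fix_ph (σ : Perm α) :
    (univ.filter fun x : Pr α => ph σ x = x).card =
      (univ.filter fun u : α => σ (σ u) = u ∧ σ u ≠ u).card := by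
  refine card_bij (fun x _ => x.1.1) ?_ ?_ ?_
  · intro x hx
    simp only [mem_filter, mem_univ, true_and, pr_eq_iff, ph_fst, ph_snd] at hx ⊢
    rw [hx.2]
    exact ⟨hx.1, x.2.symm⟩
  · intro x hx y hy h
    simp only [mem_filter, mem_univ, true_and, pr_eq_iff, ph_fst, ph_snd] at hx hy
    apply pr_ext h
    rw [← hx.2, ← hy.2, h]
  · intro u hu
    simp only [mem_filter, mem_univ, true_and] at hu
    refine ⟨⟨(u, σ u), fun h => hu.2 h.symm⟩, ?_, rfl⟩
    simp only [mem_filter, mem_univ, true_and, pr_eq_iff, ph_fst, ph_snd]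
    exact ⟨hu.1, trivial⟩

lemma card_fix_ph_inv {σ : Perm α} (hσ : σ * σ = 1) :
    (univ.filter fun x : Pr α => ph σ x = x).card = σ.support.card := by
  rw [card_fix_ph]
  congr 1
  ext u
  have : σ (σ u) = u := by rw [← Perm.mul_apply, hσ]; rfl
  simp [this]

/-- the digraphs with anti-automorphism `σ` -/
def fixA (σ : Perm α) : Finset (Pr α → Bool) := univ.filter fun f => Anti f σ

lemma card_fixA {σ : Perm α} (hσ : σ * σ = 1) :
    ∃ c : ℕ, (fixA σ).card = 2 ^ c ∧
      2 * c = Fintype.card α * (Fintype.card α - 1) + σ.support.card := by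
  obtain ⟨c, h1, h2⟩ := card_inv_one (ph σ) (by rw [ph_mul_ph, hσ, map_one])
  refine ⟨c, ?_, ?_⟩
  · rw [← h1, fixA]
    congr
    exact Subsingleton.elim _ _
  · have h3 := card_fix_ph_inv hσ
    rw [h2, card_pr]
    congr 1
    rw [← h3]
    congr

lemma support_mul_swap {σ : Perm α} {i j : α} (hij : i ≠ j) (hi : σ i = i) (hj : σ j = j) :
    (σ * swap i j).support.card = σ.support.card + 2 := by
  have hd : Perm.Disjoint σ (swap i j) := by
    intro x
    by_cases hx : x = i
    · left; rw [hx, hi]
    · by_cases hx' : x = j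
      · left; rw [hx', hj]
      · right; exact swap_apply_of_ne_of_ne hx hx'
  rw [hd.card_support_mul, Perm.card_support_swap hij]

omit [Fintype α] in
lemma commute_swap {σ : Perm α} {i j : α} (hi : σ i = i) (hj : σ j = j) :
    σ * swap i j = swap i j * σ := by
  rw [mul_swap_eq_swap_mul, hi, hj]

lemma card_fixA_swap {σ : Perm α} (hσ : σ * σ = 1) {i j : α} (hij : i ≠ j) (hi : σ i = i)
    (hj : σ j = j) :
    ∃ c : ℕ, (univ.filter fun f : Pr α → Bool => Anti f σ ∧ Aut f (swap i j)).card = 2 ^ c ∧
      4 * c = Fintype.card α * (Fintype.card α - 1) + σ.support.card +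
        (Fintype.card α - 2) * (Fintype.card α - 2 - 1) + (σ.support.card + 2) := by
  have hcm := commute_swap hi hj
  obtain ⟨c, h1, h2⟩ := card_inv_two (ph σ) (rh (swap i j)) (by rw [ph_mul_ph, hσ, map_one])
    (by rw [← map_mul, swap_mul_self, map_one])
    (by rw [ph_mul_rh, rh_mul_ph, hcm])
  refine ⟨c, ?_, ?_⟩
  · rw [← h1]
    congr
    exact Subsingleton.elim _ _
  · have h3 : (univ.filter fun x : Pr α => ph σ (rh (swap i j) x) = x).card
        = σ.support.card + 2 := by
      have h4 : ∀ x, ph σ (rh (swap i j) x) = ph (σ * swap i j) x := by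
        intro x; rw [← ph_mul_rh]; rfl
      simp only [h4]
      rw [card_fix_ph_inv, support_mul_swap hij hi hj]
      rw [mul_assoc, ← mul_assoc (swap i j), ← hcm, mul_assoc σ, swap_mul_self, mul_one, hσ]
    have h5 := card_fix_ph_inv hσ
    have h6 := card_fix_rh (swap i j)
    rw [Perm.card_support_swap hij] at h6
    rw [h2, card_pr, ← h3, ← h6, ← h5]
    congr

end Pairs

section CycleType

variable {α : Type*} [Fintype α]

/-- `n!/(k!(n-2k)!)` -/
def term (n k : ℕ) : ℝ := (n.factorial : ℝ) / (k.factorial * (n - 2 * k).factorial)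

/-- `a(n) = ∑_k n!/(k!(n-2k)!)` -/
def aa (n : ℕ) : ℝ := ∑ k ∈ range (n / 2 + 1), (n.factorial : ℝ) / (k.factorial * (n - 2 * k).factorial)

lemma invol_iff (σ : Perm α) : σ * σ = 1 ↔ σ.cycleType = Multiset.replicate σ.cycleType.card 2 := by
  rw [← pow_two, Perm.pow_prime_eq_one_iff (p := 2), Multiset.eq_replicate]
  simp

lemma support_of_invol {σ : Perm α} (hσ : σ * σ = 1) :
    σ.support.card = 2 * σ.cycleType.card := by
  have h := (invol_iff σ).mp hσ
  rw [← Perm.sum_cycleType, h]
  simp [mul_comm]

lemma card_type (k : ℕ) (hk : 2 * k ≤ Fintype.card α) :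
    ((univ.filter fun σ : Perm α => σ.cycleType = Multiset.replicate k 2).card : ℝ) *
      (2 ^ k * (k.factorial * (Fintype.card α - 2 * k).factorial)) = (Fintype.card α).factorial := by
  have h := Perm.card_of_cycleType_mul_eq α (Multiset.replicate k 2)
  have hs : (Multiset.replicate k 2).sum = 2 * k := by simp [mul_comm]
  have hcond : (Multiset.replicate k 2).sum ≤ Fintype.card α ∧
      ∀ a ∈ Multiset.replicate k 2, 2 ≤ a := by
    refine ⟨by rw [hs]; exact hk, ?_⟩
    intro a ha
    rw [Multiset.eq_of_mem_replicate ha]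
  rw [if_pos hcond, hs, Multiset.prod_replicate] at h
  have hprod : (∏ n ∈ (Multiset.replicate k 2).toFinset, ((Multiset.replicate k 2).count n).factorial)
      = k.factorial := by
    rcases Nat.eq_zero_or_pos k with rfl | hk0
    · simp
    · rw [Multiset.toFinset_replicate, if_neg hk0.ne']
      simp
  rw [hprod] at h
  rw [← h]
  push_cast
  ring

lemma sum_invol (g : ℕ → ℝ) :
    ∑ σ ∈ univ.filter (fun σ : Perm α => σ * σ = 1), g (σ.cycleType.card) =
      ∑ k ∈ range (Fintype.card α / 2 + 1),
        ((univ.filter fun σ : Perm α => σ.cycleType = Multiset.replicate k 2).card : ℝ) * g k := by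
  have hmap : ∀ σ ∈ univ.filter (fun σ : Perm α => σ * σ = 1),
      σ.cycleType.card ∈ range (Fintype.card α / 2 + 1) := by
    intro σ hσ
    simp only [mem_filter, mem_univ, true_and] at hσ
    rw [mem_range]
    have h1 := support_of_invol hσ
    have h2 : σ.support.card ≤ Fintype.card α := card_le_univ _
    omega
  rw [← Finset.sum_fiberwise_of_maps_to hmap]
  refine sum_congr rfl fun k _ => ?_
  have h1 : ((univ.filter (fun σ : Perm α => σ * σ = 1)).filter fun σ => σ.cycleType.card = k)
      = univ.filter fun σ : Perm α => σ.cycleType = Multiset.replicate k 2 := by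
    ext σ
    simp only [mem_filter, mem_univ, true_and]
    constructor
    · rintro ⟨h1, rfl⟩
      exact (invol_iff σ).mp h1
    · intro h
      have h2 : σ.cycleType.card = k := by rw [h]; simp
      refine ⟨(invol_iff σ).mpr ?_, h2⟩
      rw [h2]; exact h
  rw [h1]
  have h2 : ∀ σ ∈ univ.filter (fun σ : Perm α => σ.cycleType = Multiset.replicate k 2),
      g (σ.cycleType.card) = g k := by
    intro σ hσ
    simp only [mem_filter, mem_univ, true_and] at hσ
    rw [hσ]; simp
  rw [sum_congr rfl h2, sum_const, nsmul_eq_mul]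

lemma sum_invol_two_pow :
    ∑ σ ∈ univ.filter (fun σ : Perm α => σ * σ = 1), (2 : ℝ) ^ (σ.cycleType.card) =
      aa (Fintype.card α) := by
  rw [sum_invol (fun k => (2 : ℝ) ^ k), aa]
  refine sum_congr rfl fun k hk => ?_
  rw [mem_range] at hk
  have h := card_type (α := α) k (by omega)
  rw [eq_div_iff (by positivity), ← h]
  ring

lemma sum_invol_two_pow_ff :
    ∑ σ ∈ univ.filter (fun σ : Perm α => σ * σ = 1),
      ((Fintype.card α - 2 * σ.cycleType.card : ℕ) : ℝ) *
        ((Fintype.card α - 2 * σ.cycleType.card - 1 : ℕ) : ℝ) * (2 : ℝ) ^ (σ.cycleType.card) =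
      (Fintype.card α : ℝ) * ((Fintype.card α - 1 : ℕ) : ℝ) * aa (Fintype.card α - 2) := by
  rw [sum_invol (fun k => ((Fintype.card α - 2 * k : ℕ) : ℝ) *
        ((Fintype.card α - 2 * k - 1 : ℕ) : ℝ) * (2 : ℝ) ^ k), aa, mul_sum]
  generalize hp : Fintype.card α = p
  rcases Nat.lt_or_ge p 2 with hp2 | hp2
  · have h0 : (p : ℝ) * ((p - 1 : ℕ) : ℝ) = 0 := by
      have : p = 0 ∨ p = 1 := by omega
      rcases this with rfl | rfl <;> simp
    have h1 : ∀ k, ((p - 2 * k : ℕ) : ℝ) * ((p - 2 * k - 1 : ℕ) : ℝ) = 0 := by
      intro k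
      have : p - 2 * k = 0 ∨ p - 2 * k - 1 = 0 := by omega
      rcases this with h | h <;> simp [h]
    rw [sum_eq_zero, sum_eq_zero]
    · intro k _
      rw [h0, zero_mul]
    · intro k _
      rw [h1, zero_mul, mul_zero]
  · obtain ⟨q, rfl⟩ : ∃ q, p = q + 2 := ⟨p - 2, by omega⟩
    have hr : (q + 2) / 2 + 1 = (q / 2 + 1) + 1 := by omega
    rw [hr, sum_range_succ]
    have hlast : ((q + 2 - 2 * (q / 2 + 1) : ℕ) : ℝ) *
        ((q + 2 - 2 * (q / 2 + 1) - 1 : ℕ) : ℝ) = 0 := by
      have : q + 2 - 2 * (q / 2 + 1) - 1 = 0 := by omega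
      rw [this]; simp
    rw [hlast, zero_mul, mul_zero, add_zero]
    have hq : q + 2 - 2 = q := by omega
    rw [hq]
    refine sum_congr rfl fun k hk => ?_
    rw [mem_range] at hk
    have h := card_type (α := α) k (by omega)
    rw [hp] at h
    obtain ⟨r, hr2⟩ : ∃ r, q = 2 * k + r := ⟨q - 2 * k, by omega⟩
    have e1 : q + 2 - 2 * k = r + 2 := by omega
    have e2 : q - 2 * k = r := by omega
    have e3 : r + 2 - 1 = r + 1 := by omega
    have e4 : q + 2 - 1 = q + 1 := by omega
    rw [e1] at h
    rw [e1, e2, e3, e4]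
    have f1 : ((r + 2).factorial : ℝ) = (r + 2) * ((r + 1) * r.factorial) := by
      rw [Nat.factorial_succ, Nat.factorial_succ]; push_cast; ring
    have f2 : ((q + 2).factorial : ℝ) = (q + 2) * ((q + 1) * q.factorial) := by
      rw [Nat.factorial_succ, Nat.factorial_succ]; push_cast; ring
    rw [f1, f2] at h
    have hk0 : (k.factorial : ℝ) ≠ 0 := by positivity
    have hr0 : (r.factorial : ℝ) ≠ 0 := by positivity
    rw [mul_div_assoc', eq_div_iff (mul_ne_zero hk0 hr0)]
    push_cast
    linear_combination h

end CycleType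

end Pool.Agent.Lib.MP_b5e4d4
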