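import Pool.Agent.Lib.MP_b5e4d4_co.Sums

set_option autoImplicit false

open Finset Equiv

noncomputable section

open Classical

namespace Pool.Agent.Lib.MP_b5e4d4

variable {α : Type*} [Fintype α]

/-- the self-converse digraphs -/
def SC (α : Type*) [Fintype α] : Finset (Pr α → Bool) := univ.filter fun f => ∃ σ, Anti f σ

/-- digraphs with an automorphism moving at least three points -/
def Bad (f : Pr α → Bool) : Prop := ∃ ρ, Aut f ρ ∧ 3 ≤ ρ.support.card

lemma trip_le (f : Pr α → Bool) :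
    (trip f).card ≤ (invs f).card * (Fintype.card α * Fintype.card α) := by
  have h : trip f ⊆ (invs f) ×ˢ (univ : Finset (α × α)) := by
    intro z hz
    simp only [trip, mem_filter, mem_univ, true_and] at hz
    simp only [mem_product, mem_univ, and_true, invs, mem_filter, true_and]
    exact hz.1
  refine (card_le_card h).trans (le_of_eq ?_)
  rw [card_product, card_univ, Fintype.card_prod]

lemma perf (f : Pr α → Bool) :
    |2 * (if f ∈ SC α then (1 : ℝ) else 0) - 2 * ((invs f).card : ℝ) + ((trip f).card : ℝ)| ≤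
      (2 + (Fintype.card α : ℝ) ^ 2) * (if Bad f then ((invs f).card : ℝ) else 0) +
        2 * (if f ∈ SC α ∧ invs f = ∅ then (1 : ℝ) else 0) := by
  have hnn : (0 : ℝ) ≤ (2 + (Fintype.card α : ℝ) ^ 2) * (if Bad f then ((invs f).card : ℝ) else 0) := by
    split_ifs <;> positivity
  have hnn2 : (0 : ℝ) ≤ 2 * (if f ∈ SC α ∧ invs f = ∅ then (1 : ℝ) else 0) := by
    split_ifs <;> positivity
  by_cases hI : invs f = ∅
  · have hE : (trip f).card = 0 := by
      have := trip_le f
      rw [hI] at this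
      simpa using this
    have hI0 : ((invs f).card : ℝ) = 0 := by rw [hI]; simp
    have hb : (if Bad f then ((invs f).card : ℝ) else 0) = 0 := by
      split_ifs
      · exact hI0
      · rfl
    rw [hb, hE, hI0]
    by_cases hS : f ∈ SC α
    · have hc : (if f ∈ SC α ∧ invs f = ∅ then (1 : ℝ) else 0) = 1 := if_pos ⟨hS, hI⟩
      rw [hc, if_pos hS]
      norm_num
    · have hc : (if f ∈ SC α ∧ invs f = ∅ then (1 : ℝ) else 0) = 0 := if_neg (fun h => hS h.1)
      rw [hc, if_neg hS]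
      norm_num
  · obtain ⟨σ, hσ⟩ := Finset.nonempty_iff_ne_empty.mpr hI
    have hS : f ∈ SC α := by
      simp only [invs, mem_filter, mem_univ, true_and] at hσ
      simp only [SC, mem_filter, mem_univ, true_and]
      exact ⟨σ, hσ.1⟩
    have hIpos : 1 ≤ (invs f).card := Finset.card_pos.mpr ⟨σ, hσ⟩
    have hIpos' : (1 : ℝ) ≤ (invs f).card := Nat.one_le_cast.mpr hIpos
    rw [if_pos hS]
    by_cases hB : Bad f
    · rw [if_pos hB]
      have h1 : ((trip f).card : ℝ) ≤ (invs f).card * (Fintype.card α : ℝ) ^ 2 := by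
        have := trip_le f
        rw [pow_two]
        exact_mod_cast this
      have h2 : (0 : ℝ) ≤ (trip f).card := Nat.cast_nonneg _
      generalize (2 * (if f ∈ SC α ∧ invs f = ∅ then (1 : ℝ) else 0)) = w at hnn2 ⊢
      generalize ((invs f).card : ℝ) = I at h1 hIpos' ⊢
      generalize ((trip f).card : ℝ) = E at h1 h2 ⊢
      generalize ((Fintype.card α : ℝ) ^ 2) = P at h1 ⊢
      rw [abs_le]
      constructor
      · linarith
      · linarith
    · have hgood : ∀ ρ, Aut f ρ → ρ.support.card < 3 := by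
        intro ρ hρ
        by_contra h
        exact hB ⟨ρ, hρ, by omega⟩
      have h1 := pointwise ⟨σ, by
        simp only [invs, mem_filter, mem_univ, true_and] at hσ; exact hσ.1⟩ hgood
      have h2 : (2 : ℝ) + (trip f).card = 2 * (invs f).card := by exact_mod_cast h1
      have h3 : 2 * (1 : ℝ) - 2 * ((invs f).card : ℝ) + ((trip f).card : ℝ) = 0 := by linarith
      rw [h3, abs_zero]
      exact add_nonneg hnn hnn2

/-- the sum over the digraphs with a large automorphism -/
lemma R1_le_sum :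
    ∑ f : Pr α → Bool, (if Bad f then ((invs f).card : ℝ) else 0) ≤
      ∑ σ ∈ univ.filter (fun σ : Perm α => σ * σ = 1),
        ∑ ρ ∈ univ.filter (fun ρ : Perm α => 3 ≤ ρ.support.card), ((fixAB σ ρ).card : ℝ) := by
  have h1 : ∀ f : Pr α → Bool, (if Bad f then ((invs f).card : ℝ) else 0) ≤
      ∑ σ ∈ univ.filter (fun σ : Perm α => σ * σ = 1),
        ∑ ρ ∈ univ.filter (fun ρ : Perm α => 3 ≤ ρ.support.card),
          if Anti f σ ∧ Aut f ρ then (1 : ℝ) else 0 := by
    intro f
    have hnn : ∀ σ : Perm α, (0 : ℝ) ≤ ∑ ρ ∈ univ.filter (fun ρ : Perm α => 3 ≤ ρ.support.card),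
          if Anti f σ ∧ Aut f ρ then (1 : ℝ) else 0 := by
      intro σ
      apply sum_nonneg
      intro ρ _
      split_ifs <;> norm_num
    split_ifs with hB
    · obtain ⟨ρ, hρ, hρ3⟩ := hB
      have h2 : ((invs f).card : ℝ) =
          ∑ σ ∈ univ.filter (fun σ : Perm α => σ * σ = 1), if Anti f σ then (1 : ℝ) else 0 := by
        rw [← sum_filter, filter_filter, sum_const, nsmul_eq_mul, mul_one, invs]
        congr 2
        ext σ
        simp only [mem_filter, mem_univ, true_and]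
        exact and_comm
      rw [h2]
      refine sum_le_sum fun σ _ => ?_
      split_ifs with hσ
      · have h3 : (if Anti f σ ∧ Aut f ρ then (1 : ℝ) else 0) = 1 := if_pos ⟨hσ, hρ⟩
        refine h3.symm.le.trans ?_
        refine single_le_sum (f := fun ρ => if Anti f σ ∧ Aut f ρ then (1 : ℝ) else 0) ?_ ?_
        · intro ρ _
          show (0 : ℝ) ≤ if Anti f σ ∧ Aut f ρ then (1 : ℝ) else 0
          split_ifs <;> norm_num
        · simp only [mem_filter, mem_univ, true_and]
          exact hρ3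
      · exact hnn σ
    · exact sum_nonneg fun σ _ => hnn σ
  refine (sum_le_sum fun f _ => h1 f).trans (le_of_eq ?_)
  rw [sum_comm]
  refine sum_congr rfl fun σ _ => ?_
  rw [sum_comm]
  refine sum_congr rfl fun ρ _ => ?_
  rw [← sum_filter, sum_const, nsmul_eq_mul, mul_one, fixAB]

lemma fixAB_le {x : ℝ} (hx1 : 1 < x) (hx4 : x ^ 4 = 2) {σ : Perm α} (hσ : σ * σ = 1)
    (hp : 3 ≤ Fintype.card α) (ρ : Perm α) :
    ((fixAB σ ρ).card : ℝ) ≤ 2 ^ N2 (Fintype.card α) * 2 ^ σ.cycleType.card *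
      (x ^ (ρ.support.card * (2 * Fintype.card α - ρ.support.card - 3)))⁻¹ := by
  obtain ⟨c, h1, h2⟩ := fixAB_bound hσ ρ
  rw [support_of_invol hσ, ← two_mul_N2] at h2
  have h3 : ρ.support.card ≤ Fintype.card α := card_le_univ _
  have h4 : ρ.support.card * (2 * Fintype.card α - ρ.support.card - 3) +
      ρ.support.card * ρ.support.card + 3 * ρ.support.card =
        2 * (Fintype.card α * ρ.support.card) := by
    obtain ⟨q, hq⟩ := Nat.exists_eq_add_of_le h3
    have h5 : (2 * Fintype.card α - ρ.support.card - 3) + ρ.support.card + 3 =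
      2 * Fintype.card α := by omega
    calc _ = ρ.support.card * ((2 * Fintype.card α - ρ.support.card - 3) + ρ.support.card + 3) := by
          ring
      _ = _ := by rw [h5]; ring
  have h6 := pow_bound hx1 hx4 (c := c) (A := 4 * (N2 (Fintype.card α) + σ.cycleType.card))
    (B := ρ.support.card * (2 * Fintype.card α - ρ.support.card - 3)) (by omega)
  rw [h1]
  push_cast
  rw [← pow_add]
  rw [pow_mul x 4, hx4] at h6
  exact h6

lemma fixAB_le_three {σ : Perm α} (hσ : σ * σ = 1) {ρ : Perm α} (hρ : ρ.support.card = 3) :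
    ((fixAB σ ρ).card : ℝ) ≤ 2 ^ N2 (Fintype.card α) * 2 ^ σ.cycleType.card *
      (1024 / 4 ^ Fintype.card α) := by
  obtain ⟨c, h1, h2⟩ := fixAB_bound_three hσ hρ
  rw [support_of_invol hσ, ← two_mul_N2] at h2
  have h3 : c + 2 * Fintype.card α ≤ N2 (Fintype.card α) + σ.cycleType.card + 10 := by omega
  rw [h1]
  push_cast
  have h4 : (4 : ℝ) ^ Fintype.card α = 2 ^ (2 * Fintype.card α) := by
    rw [pow_mul]; norm_num
  rw [h4, ← mul_div_assoc, le_div_iff₀ (by positivity), ← pow_add]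
  calc (2 : ℝ) ^ (c + 2 * Fintype.card α) ≤ 2 ^ (N2 (Fintype.card α) + σ.cycleType.card + 10) :=
        pow_le_pow_right₀ (by norm_num) h3
    _ = 2 ^ N2 (Fintype.card α) * 2 ^ σ.cycleType.card * 1024 := by
        rw [pow_add, pow_add]; norm_num

lemma card_perm_support_le' (m : ℕ) :
    ((univ.filter fun ρ : Perm α => ρ.support.card = m).card : ℝ) ≤ (Fintype.card α : ℝ) ^ m := by
  have h := (card_perm_support_le (α := α) m).trans (choose_mul_factorial_le _ _)
  exact_mod_cast h

/-- bound for one involution -/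
lemma R1_inner (hp : 32 ≤ Fintype.card α) {σ : Perm α} (hσ : σ * σ = 1) :
    ∑ ρ ∈ univ.filter (fun ρ : Perm α => 3 ≤ ρ.support.card), ((fixAB σ ρ).card : ℝ) ≤
      2 ^ N2 (Fintype.card α) * 2 ^ σ.cycleType.card *
        (288 * (Fintype.card α : ℝ) ^ 4 / 4 ^ Fintype.card α) := by
  obtain ⟨x, hx1, hx4⟩ := exists_root
  have hx0 : 0 < x := by linarith
  set p := Fintype.card α with hpdef
  set K : ℝ := 2 ^ N2 p * 2 ^ σ.cycleType.card with hK
  have hK0 : 0 < K := by positivity
  have hmap : ∀ ρ ∈ univ.filter (fun ρ : Perm α => 3 ≤ ρ.support.card),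
      ρ.support.card ∈ range (p + 1) := by
    intro ρ _
    have : ρ.support.card ≤ p := card_le_univ _
    rw [mem_range]; omega
  rw [← sum_fiberwise_of_maps_to hmap]
  have hterm : ∀ m ∈ range (p + 1),
      ∑ ρ ∈ (univ.filter (fun ρ : Perm α => 3 ≤ ρ.support.card)).filter
        (fun ρ => ρ.support.card = m), ((fixAB σ ρ).card : ℝ) ≤
      K * ((if m = 3 then 32 * (p : ℝ) ^ 4 / 4 ^ p else 0) +
        128 * (p : ℝ) ^ 4 / 4 ^ p * (if 4 ≤ m then (1 / 2 : ℝ) ^ (m - 4) else 0)) := by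
    intro m hm
    rw [mem_range] at hm
    have hpp : (32 : ℝ) ≤ p := by exact_mod_cast hp
    have hsub : (univ.filter (fun ρ : Perm α => 3 ≤ ρ.support.card)).filter
        (fun ρ => ρ.support.card = m) ⊆ univ.filter (fun ρ : Perm α => ρ.support.card = m) := by
      intro ρ hρ
      simp only [mem_filter, mem_univ, true_and] at hρ ⊢
      exact hρ.2
    rcases Nat.lt_or_ge m 3 with hm3 | hm3
    · have : (univ.filter (fun ρ : Perm α => 3 ≤ ρ.support.card)).filter
        (fun ρ => ρ.support.card = m) = ∅ := by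
        rw [filter_eq_empty_iff]
        intro ρ hρ h
        simp only [mem_filter, mem_univ, true_and] at hρ
        omega
      rw [this, sum_empty]
      split_ifs <;> positivity
    rcases Nat.eq_or_lt_of_le hm3 with hm3' | hm4
    · subst hm3'
      rw [if_pos rfl, if_neg (by norm_num), mul_zero, add_zero]
      have hle : ∀ ρ ∈ (univ.filter (fun ρ : Perm α => 3 ≤ ρ.support.card)).filter
        (fun ρ => ρ.support.card = 3), ((fixAB σ ρ).card : ℝ) ≤ K * (1024 / 4 ^ p) := by
        intro ρ hρ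
        simp only [mem_filter, mem_univ, true_and] at hρ
        exact fixAB_le_three hσ hρ.2
      refine (sum_le_card_nsmul _ _ _ hle).trans ?_
      rw [nsmul_eq_mul]
      have h1 : (((univ.filter (fun ρ : Perm α => 3 ≤ ρ.support.card)).filter
        (fun ρ => ρ.support.card = 3)).card : ℝ) ≤ (p : ℝ) ^ 3 :=
        (by exact_mod_cast card_le_card hsub : (((univ.filter (fun ρ : Perm α => 3 ≤ ρ.support.card)).filter
        (fun ρ => ρ.support.card = 3)).card : ℝ) ≤ ((univ.filter fun ρ : Perm α => ρ.support.card = 3).card : ℝ)).trans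
        (card_perm_support_le' 3)
      calc _ ≤ (p : ℝ) ^ 3 * (K * (1024 / 4 ^ p)) :=
            mul_le_mul_of_nonneg_right h1 (by positivity)
        _ = K * (32 * (p : ℝ) ^ 3 * 32 / 4 ^ p) := by ring
        _ ≤ K * (32 * (p : ℝ) ^ 3 * p / 4 ^ p) := by
            gcongr
        _ = K * (32 * (p : ℝ) ^ 4 / 4 ^ p) := by ring
    · rw [if_neg (by omega), if_pos (by omega), zero_add]
      have hle : ∀ ρ ∈ (univ.filter (fun ρ : Perm α => 3 ≤ ρ.support.card)).filter
        (fun ρ => ρ.support.card = m), ((fixAB σ ρ).card : ℝ) ≤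
          K * (x ^ (m * (2 * p - m - 3)))⁻¹ := by
        intro ρ hρ
        simp only [mem_filter, mem_univ, true_and] at hρ
        have := fixAB_le hx1 hx4 hσ (by omega) ρ
        rw [hρ.2] at this
        exact this
      refine (sum_le_card_nsmul _ _ _ hle).trans ?_
      rw [nsmul_eq_mul]
      have h1 : (((univ.filter (fun ρ : Perm α => 3 ≤ ρ.support.card)).filter
        (fun ρ => ρ.support.card = m)).card : ℝ) ≤ (p : ℝ) ^ m :=
        (by exact_mod_cast card_le_card hsub : (((univ.filter (fun ρ : Perm α => 3 ≤ ρ.support.card)).filter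
        (fun ρ => ρ.support.card = m)).card : ℝ) ≤ ((univ.filter fun ρ : Perm α => ρ.support.card = m).card : ℝ)).trans
        (card_perm_support_le' m)
      calc _ ≤ (p : ℝ) ^ m * (K * (x ^ (m * (2 * p - m - 3)))⁻¹) :=
            mul_le_mul_of_nonneg_right h1 (by positivity)
        _ = K * ((p : ℝ) ^ m * (x ^ (m * (2 * p - m - 3)))⁻¹) := by ring
        _ ≤ K * (128 * (p : ℝ) ^ 4 / 4 ^ p * (1 / 2) ^ (m - 4)) :=
            mul_le_mul_of_nonneg_left (mterm hx1 hx4 hp hm4 (by omega)) hK0.le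
  refine (sum_le_sum hterm).trans ?_
  rw [← mul_sum, sum_add_distrib, ← mul_sum]
  refine mul_le_mul_of_nonneg_left ?_ hK0.le
  have h1 : ∑ m ∈ range (p + 1), (if m = 3 then 32 * (p : ℝ) ^ 4 / 4 ^ p else 0) =
      32 * (p : ℝ) ^ 4 / 4 ^ p := by
    rw [sum_ite_eq' (range (p + 1)) 3, if_pos]
    rw [mem_range]; omega
  rw [h1]
  have h2 := mul_le_mul_of_nonneg_left (geo p)
    (by positivity : (0 : ℝ) ≤ 128 * (p : ℝ) ^ 4 / 4 ^ p)
  calc _ ≤ 32 * (p : ℝ) ^ 4 / 4 ^ p + 128 * (p : ℝ) ^ 4 / 4 ^ p * 2 := by linarith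
    _ = 288 * (p : ℝ) ^ 4 / 4 ^ p := by ring

lemma R1_le (hp : 32 ≤ Fintype.card α) :
    ∑ f : Pr α → Bool, (if Bad f then ((invs f).card : ℝ) else 0) ≤
      2 ^ N2 (Fintype.card α) * aa (Fintype.card α) *
        (288 * (Fintype.card α : ℝ) ^ 4 / 4 ^ Fintype.card α) := by
  refine R1_le_sum.trans ?_
  have h1 : ∑ σ ∈ univ.filter (fun σ : Perm α => σ * σ = 1),
        ∑ ρ ∈ univ.filter (fun ρ : Perm α => 3 ≤ ρ.support.card), ((fixAB σ ρ).card : ℝ) ≤
      ∑ σ ∈ univ.filter (fun σ : Perm α => σ * σ = 1),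
        2 ^ N2 (Fintype.card α) * 2 ^ σ.cycleType.card *
        (288 * (Fintype.card α : ℝ) ^ 4 / 4 ^ Fintype.card α) := by
    refine sum_le_sum fun σ hσ => ?_
    simp only [mem_filter, mem_univ, true_and] at hσ
    exact R1_inner hp hσ
  refine h1.trans (le_of_eq ?_)
  rw [← sum_mul, ← mul_sum, sum_invol_two_pow]

/-- permutations of 2-power order that are not involutions -/
def QQ (α : Type*) [Fintype α] : Finset (Perm α) :=
  univ.filter fun τ => (∃ r, τ ^ (2 ^ r) = 1) ∧ τ * τ ≠ 1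

lemma T_le_sum :
    ∑ f : Pr α → Bool, (if f ∈ SC α ∧ invs f = ∅ then (1 : ℝ) else 0) ≤
      ∑ τ ∈ QQ α, ((fixA τ).card : ℝ) := by
  have h1 : ∀ f : Pr α → Bool, (if f ∈ SC α ∧ invs f = ∅ then (1 : ℝ) else 0) ≤
      ∑ τ ∈ QQ α, if Anti f τ then (1 : ℝ) else 0 := by
    intro f
    split_ifs with h
    · obtain ⟨hS, hI⟩ := h
      simp only [SC, mem_filter, mem_univ, true_and] at hS
      obtain ⟨σ, hσ⟩ := hS
      obtain ⟨r, q, hq, hrq⟩ := Nat.exists_eq_two_pow_mul_odd (orderOf_pos σ).ne'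
      have hτ : Anti f (σ ^ q) := hσ.pow_odd hq
      have hpow : (σ ^ q) ^ (2 ^ r) = 1 := by
        rw [← pow_mul, mul_comm, ← hrq, pow_orderOf_eq_one]
      have hne : σ ^ q * σ ^ q ≠ 1 := by
        intro hh
        have : σ ^ q ∈ invs f := by
          simp only [invs, mem_filter, mem_univ, true_and]
          exact ⟨hτ, hh⟩
        rw [hI] at this
        exact absurd this (notMem_empty _)
      have h3 : (if Anti f (σ ^ q) then (1 : ℝ) else 0) = 1 := if_pos hτ
      refine h3.symm.le.trans ?_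
      refine single_le_sum (f := fun τ => if Anti f τ then (1 : ℝ) else 0) ?_ ?_
      · intro τ _
        show (0 : ℝ) ≤ if Anti f τ then (1 : ℝ) else 0
        split_ifs <;> norm_num
      · simp only [QQ, mem_filter, mem_univ, true_and]
        exact ⟨⟨r, hpow⟩, hne⟩
    · apply sum_nonneg
      intro τ _
      split_ifs <;> norm_num
  refine (sum_le_sum fun f _ => h1 f).trans (le_of_eq ?_)
  rw [sum_comm]
  refine sum_congr rfl fun σ _ => ?_
  rw [← sum_filter, sum_const, nsmul_eq_mul, mul_one, fixA]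

lemma fixA_le {x : ℝ} (hx1 : 1 < x) (hx4 : x ^ 4 = 2) {τ : Perm α}
    (hp : 3 ≤ Fintype.card α) (hτ : τ ∈ QQ α) :
    ((fixA τ).card : ℝ) ≤ 2 ^ N2 (Fintype.card α) *
      (x ^ ((τ * τ).support.card * (2 * Fintype.card α - (τ * τ).support.card - 3)))⁻¹ *
      (x ^ 2) ^ (univ.filter fun u : α => τ (τ u) = u ∧ τ u ≠ u).card := by
  simp only [QQ, mem_filter, mem_univ, true_and] at hτ
  obtain ⟨⟨r, hr⟩, hne⟩ := hτ
  obtain ⟨c, h1, h2⟩ := fixA_bound hr
  rw [← two_mul_N2] at h2
  set m := (τ * τ).support.card with hm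
  set t := (univ.filter fun u : α => τ (τ u) = u ∧ τ u ≠ u).card with ht
  have h3 : m ≤ Fintype.card α := card_le_univ _
  have h4 : m * (2 * Fintype.card α - m - 3) + m * m + 3 * m = 2 * (Fintype.card α * m) := by
    have h5 : (2 * Fintype.card α - m - 3) + m + 3 = 2 * Fintype.card α := by omega
    calc _ = m * ((2 * Fintype.card α - m - 3) + m + 3) := by ring
      _ = _ := by rw [h5]; ring
  have h6 := pow_bound hx1 hx4 (c := c) (A := 4 * N2 (Fintype.card α) + 2 * t)
    (B := m * (2 * Fintype.card α - m - 3)) (by omega)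
  rw [h1]
  push_cast
  rw [pow_add, pow_mul x 4, hx4, pow_mul x 2] at h6
  linarith [h6]

lemma sum_invol_sq {β : Type*} [Fintype β] [dec : DecidableEq β] {x : ℝ} (hx4 : x ^ 4 = 2) :
    ∑ υ ∈ univ.filter (fun υ : Perm β => υ * υ = 1), (x ^ 2) ^ (υ.support.card) =
      aa (Fintype.card β) := by
  have hd : dec = (fun a b => Classical.propDecidable (a = b)) := Subsingleton.elim _ _
  subst hd
  rw [← sum_invol_two_pow]
  apply sum_congr
  · ext υ
    simp only [mem_filter, mem_univ, true_and]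
  · intro υ hυ
    simp only [mem_filter, mem_univ, true_and] at hυ
    have e4 : (x ^ 2) ^ (2 * υ.cycleType.card) = (x ^ 4) ^ υ.cycleType.card := by
      rw [← pow_mul, ← pow_mul]
      congr 1
      ring
    rw [support_of_invol hυ, e4, hx4]

lemma sum_over_M {x : ℝ} (hx1 : 1 < x) (hx4 : x ^ 4 = 2) (M : Finset α)
    (hp : 3 ≤ Fintype.card α) :
    ∑ τ ∈ (QQ α).filter (fun τ => (τ * τ).support = M), ((fixA τ).card : ℝ) ≤
      (if 4 ≤ M.card then 2 ^ N2 (Fintype.card α) *
      (x ^ (M.card * (2 * Fintype.card α - M.card - 3)))⁻¹ * (M.card.factorial : ℝ) *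
        aa (Fintype.card α) else 0) := by
  have hx0 : 0 < x := by linarith
  split_ifs with hM
  · have h1 : ∑ τ ∈ (QQ α).filter (fun τ => (τ * τ).support = M), ((fixA τ).card : ℝ) ≤
        ∑ τ ∈ (QQ α).filter (fun τ => (τ * τ).support = M), 2 ^ N2 (Fintype.card α) *
        (x ^ (M.card * (2 * Fintype.card α - M.card - 3)))⁻¹ *
        (x ^ 2) ^ (univ.filter fun u : α => τ (τ u) = u ∧ τ u ≠ u).card := by
      refine sum_le_sum fun τ hτ => ?_
      rw [mem_filter] at hτ
      have := fixA_le hx1 hx4 hp hτ.1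
      rw [hτ.2] at this
      exact this
    refine h1.trans ?_
    rw [← mul_sum]
    have h2 : ∑ τ ∈ (QQ α).filter (fun τ => (τ * τ).support = M),
        (x ^ 2) ^ (univ.filter fun u : α => τ (τ u) = u ∧ τ u ≠ u).card ≤
        ∑ τ ∈ univ.filter (fun τ : Perm α => (τ * τ).support = M),
        (x ^ 2) ^ (univ.filter fun u : α => τ (τ u) = u ∧ τ u ≠ u).card := by
      refine sum_le_sum_of_subset_of_nonneg ?_ (fun τ _ _ => by positivity)
      intro τ hτ
      rw [mem_filter] at hτ ⊢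
      exact ⟨mem_univ _, hτ.2⟩
    have h3 := sum_support_sq M (fun n => (x ^ 2) ^ n) (fun n => by positivity)
    rw [sum_invol_sq hx4] at h3
    have h5 : aa (Fintype.card {a // ¬ (a ∈ M)}) ≤ aa (Fintype.card α) :=
      aa_mono (Fintype.card_subtype_le _)
    have h6 := (h2.trans h3).trans (mul_le_mul_of_nonneg_left h5
      (by positivity : (0 : ℝ) ≤ (M.card.factorial : ℝ)))
    calc _ ≤ 2 ^ N2 (Fintype.card α) * (x ^ (M.card * (2 * Fintype.card α - M.card - 3)))⁻¹ *
          ((M.card.factorial : ℝ) * aa (Fintype.card α)) :=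
          mul_le_mul_of_nonneg_left h6 (by positivity)
      _ = _ := by ring
  · apply le_of_eq
    have : (QQ α).filter (fun τ => (τ * τ).support = M) = ∅ := by
      rw [filter_eq_empty_iff]
      intro τ hτ h
      simp only [QQ, mem_filter, mem_univ, true_and] at hτ
      obtain ⟨⟨r, hr⟩, hne⟩ := hτ
      have := four_le_support hr hne
      rw [h] at this
      exact hM this
    rw [this, sum_empty]

lemma T_le (hp : 32 ≤ Fintype.card α) :
    ∑ f : Pr α → Bool, (if f ∈ SC α ∧ invs f = ∅ then (1 : ℝ) else 0) ≤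
      2 ^ N2 (Fintype.card α) * aa (Fintype.card α) *
        (256 * (Fintype.card α : ℝ) ^ 4 / 4 ^ Fintype.card α) := by
  obtain ⟨x, hx1, hx4⟩ := exists_root
  have hx0 : 0 < x := by linarith
  refine T_le_sum.trans ?_
  set p := Fintype.card α with hpdef
  have haa := aa_pos p
  have hmap : ∀ τ ∈ QQ α, (τ * τ).support ∈ (univ : Finset α).powerset := by
    intro τ _
    simp
  rw [← sum_fiberwise_of_maps_to hmap]
  refine (sum_le_sum fun M _ => sum_over_M hx1 hx4 M (by omega)).trans ?_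
  have h1 := Finset.sum_powerset_apply_card (x := (univ : Finset α)) (fun m => (if 4 ≤ m then
      2 ^ N2 p * (x ^ (m * (2 * p - m - 3)))⁻¹ * (m.factorial : ℝ) * aa p else 0))
  rw [h1, card_univ, ← hpdef]
  have hterm : ∀ m ∈ range (p + 1), (p.choose m) • (if 4 ≤ m then 2 ^ N2 p *
      (x ^ (m * (2 * p - m - 3)))⁻¹ * (m.factorial : ℝ) * aa p else 0) ≤
      2 ^ N2 p * aa p * (128 * (p : ℝ) ^ 4 / 4 ^ p) *
        (if 4 ≤ m then (1 / 2 : ℝ) ^ (m - 4) else 0) := by
    intro m hm
    rw [mem_range] at hm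
    split_ifs with hm4
    · rw [nsmul_eq_mul]
      have h2 : (p.choose m : ℝ) * (m.factorial : ℝ) ≤ (p : ℝ) ^ m := by
        exact_mod_cast choose_mul_factorial_le p m
      have h3 := mterm hx1 hx4 hp hm4 (by omega)
      calc (p.choose m : ℝ) * (2 ^ N2 p * (x ^ (m * (2 * p - m - 3)))⁻¹ * (m.factorial : ℝ) * aa p)
          = (2 ^ N2 p * aa p * (x ^ (m * (2 * p - m - 3)))⁻¹) *
            ((p.choose m : ℝ) * (m.factorial : ℝ)) := by ring
        _ ≤ (2 ^ N2 p * aa p * (x ^ (m * (2 * p - m - 3)))⁻¹) * (p : ℝ) ^ m :=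
            mul_le_mul_of_nonneg_left h2 (by positivity)
        _ = 2 ^ N2 p * aa p * ((p : ℝ) ^ m * (x ^ (m * (2 * p - m - 3)))⁻¹) := by ring
        _ ≤ 2 ^ N2 p * aa p * (128 * (p : ℝ) ^ 4 / 4 ^ p * (1 / 2) ^ (m - 4)) :=
            mul_le_mul_of_nonneg_left h3 (by positivity)
        _ = _ := by ring
    · simp
  refine (sum_le_sum hterm).trans ?_
  rw [← mul_sum]
  calc _ ≤ 2 ^ N2 p * aa p * (128 * (p : ℝ) ^ 4 / 4 ^ p) * 2 :=
        mul_le_mul_of_nonneg_left (geo p) (by positivity)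
    _ = _ := by ring

/-- the main estimate -/
theorem main (hp : 32 ≤ Fintype.card α) :
    |((SC α).card : ℝ) - 2 ^ N2 (Fintype.card α) * (aa (Fintype.card α) -
      (Fintype.card α : ℝ) * ((Fintype.card α : ℝ) - 1) * aa (Fintype.card α - 2) /
        2 ^ (Fintype.card α - 1))| ≤
      145 * (Fintype.card α : ℝ) ^ 6 / 4 ^ Fintype.card α *
        (2 ^ N2 (Fintype.card α) * aa (Fintype.card α)) := by
  have h0 : (2 : ℝ) * (SC α).card = ∑ f : Pr α → Bool, 2 * (if f ∈ SC α then (1 : ℝ) else 0) := by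
    rw [← mul_sum, ← sum_filter, sum_const, nsmul_eq_mul, mul_one]
    congr 3
    ext f
    simp
  have h1 : |∑ f : Pr α → Bool, (2 * (if f ∈ SC α then (1 : ℝ) else 0) - 2 * ((invs f).card : ℝ) +
      ((trip f).card : ℝ))| ≤ ∑ f : Pr α → Bool, ((2 + (Fintype.card α : ℝ) ^ 2) *
        (if Bad f then ((invs f).card : ℝ) else 0) +
        2 * (if f ∈ SC α ∧ invs f = ∅ then (1 : ℝ) else 0)) :=
    (abs_sum_le_sum_abs _ _).trans (sum_le_sum fun f _ => perf f)
  rw [sum_add_distrib, sum_sub_distrib, ← h0, ← mul_sum, S1_eq, S2_eq (by omega),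
    sum_add_distrib, ← mul_sum, ← mul_sum] at h1
  have hR := R1_le hp
  have hT := T_le hp
  set p := Fintype.card α with hpdef
  have hpp : (32 : ℝ) ≤ p := by exact_mod_cast hp
  set K : ℝ := 2 ^ N2 p * aa p with hK
  have hK0 : 0 < K := mul_pos (by positivity) (aa_pos p)
  have e1 : ((p - 1 : ℕ) : ℝ) = (p : ℝ) - 1 := by
    rw [Nat.cast_sub (by omega)]; norm_num
  have e2 : (2 : ℝ) ^ (p - 1) = 2 * 2 ^ (p - 2) := by
    rw [← pow_succ']; congr 1; omega
  rw [e1] at h1
  have e3 : (2 : ℝ) * (SC α).card - 2 * (2 ^ N2 p * aa p) +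
      2 ^ N2 p * ((p : ℝ) * ((p : ℝ) - 1) * aa (p - 2) / 2 ^ (p - 2)) =
      2 * (((SC α).card : ℝ) - 2 ^ N2 p * (aa p - (p : ℝ) * ((p : ℝ) - 1) * aa (p - 2) /
        2 ^ (p - 1))) := by
    rw [e2]
    field_simp
    ring
  rw [← hK] at e3
  rw [e3, abs_mul, abs_of_pos (by norm_num : (0 : ℝ) < 2)] at h1
  have h2 : (2 + (p : ℝ) ^ 2) * (∑ f : Pr α → Bool, (if Bad f then ((invs f).card : ℝ) else 0)) +
      2 * ∑ f : Pr α → Bool, (if f ∈ SC α ∧ invs f = ∅ then (1 : ℝ) else 0) ≤
      2 * (145 * (p : ℝ) ^ 6 / 4 ^ p * K) := by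
    calc _ ≤ (2 + (p : ℝ) ^ 2) * (K * (288 * (p : ℝ) ^ 4 / 4 ^ p)) +
          2 * (K * (256 * (p : ℝ) ^ 4 / 4 ^ p)) := by
          refine add_le_add (mul_le_mul_of_nonneg_left hR (by positivity))
            (mul_le_mul_of_nonneg_left hT (by norm_num))
      _ = K * (1 / 4 ^ p) * (288 * (p : ℝ) ^ 6 + 1088 * (p : ℝ) ^ 4) := by ring
      _ ≤ K * (1 / 4 ^ p) * (290 * (p : ℝ) ^ 6) := by
          refine mul_le_mul_of_nonneg_left ?_ (by positivity)
          have h3 : (1024 : ℝ) ≤ (p : ℝ) ^ 2 := by nlinarith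
          have h4 : (0 : ℝ) ≤ (p : ℝ) ^ 4 := by positivity
          nlinarith [mul_le_mul_of_nonneg_right h3 h4]
      _ = _ := by ring
  linarith [h1.trans h2]

end Pool.Agent.Lib.MP_b5e4d4
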