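import Pool.Agent.Lib.MP_b5e4d4_co.Bounds2

set_option autoImplicit false

open Finset Equiv

noncomputable section

open Classical

namespace Pool.Agent.Lib.MP_b5e4d4

lemma aa_pos (n : ℕ) : 0 < aa n := by
  rw [aa]
  apply sum_pos
  · intro k _; positivity
  · exact ⟨0, by simp⟩

lemma aa_succ (n : ℕ) : aa n ≤ aa (n + 1) := by
  rw [aa, aa]
  have hsub : range (n / 2 + 1) ⊆ range ((n + 1) / 2 + 1) := by
    intro k hk; rw [mem_range] at hk ⊢; omega
  refine le_trans ?_ (sum_le_sum_of_subset_of_nonneg hsub (fun k _ _ => by positivity))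
  refine sum_le_sum fun k hk => ?_
  rw [mem_range] at hk
  obtain ⟨r, hr⟩ : ∃ r, n = 2 * k + r := ⟨n - 2 * k, by omega⟩
  have e1 : n - 2 * k = r := by omega
  have e2 : n + 1 - 2 * k = r + 1 := by omega
  rw [e1, e2, Nat.factorial_succ, Nat.factorial_succ]
  rw [div_le_div_iff₀ (by positivity) (by positivity)]
  push_cast
  have h1 : (r : ℝ) + 1 ≤ n + 1 := by
    have : r ≤ n := by omega
    have : (r : ℝ) ≤ n := by exact_mod_cast this
    linarith
  have h := mul_le_mul_of_nonneg_left h1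
    (by positivity : (0 : ℝ) ≤ n.factorial * (k.factorial * r.factorial))
  linarith [h]

lemma aa_mono : Monotone aa := monotone_nat_of_le_succ aa_succ

lemma exists_root : ∃ x : ℝ, 1 < x ∧ x ^ 4 = 2 := by
  refine ⟨(2 : ℝ) ^ ((1 : ℝ) / 4), ?_, ?_⟩
  · exact Real.one_lt_rpow (by norm_num) (by norm_num)
  · rw [← Real.rpow_natCast, ← Real.rpow_mul (by norm_num)]
    norm_num

lemma pow_bound {x : ℝ} (hx1 : 1 < x) (hx4 : x ^ 4 = 2) {c A B : ℕ} (h : 4 * c + B ≤ A) :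
    (2 : ℝ) ^ c ≤ x ^ A * (x ^ B)⁻¹ := by
  have h0 : (0 : ℝ) < x ^ B := by positivity
  rw [← div_eq_mul_inv, le_div_iff₀ h0, ← hx4, ← pow_mul, ← pow_add]
  exact pow_le_pow_right₀ hx1.le h

lemma hp32 : ∀ p : ℕ, 32 ≤ p → p ^ 4 * 2 ^ 11 ≤ 2 ^ p := by
  intro p hp
  induction p, hp using Nat.le_induction with
  | base => norm_num
  | succ p hp ih =>
    have h1 : (p + 1) ^ 4 ≤ 2 * p ^ 4 := by
      have h2 : 4 * p ^ 3 + 6 * p ^ 2 + 4 * p + 1 ≤ p ^ 4 := by
        have h3 : 32 * p ^ 3 ≤ p ^ 4 := by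
          calc 32 * p ^ 3 ≤ p * p ^ 3 := Nat.mul_le_mul_right _ hp
            _ = p ^ 4 := by ring
        have h4 : p ^ 2 ≤ p ^ 3 := Nat.pow_le_pow_right (by omega) (by norm_num)
        have h5 : p ≤ p ^ 2 := by nlinarith
        have h6 : 1 ≤ p := by omega
        omega
      calc (p + 1) ^ 4 = p ^ 4 + (4 * p ^ 3 + 6 * p ^ 2 + 4 * p + 1) := by ring
        _ ≤ 2 * p ^ 4 := by omega
    calc (p + 1) ^ 4 * 2 ^ 11 ≤ (2 * p ^ 4) * 2 ^ 11 := Nat.mul_le_mul_right _ h1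
      _ = 2 * (p ^ 4 * 2 ^ 11) := by ring
      _ ≤ 2 * 2 ^ p := Nat.mul_le_mul_left _ ih
      _ = 2 ^ (p + 1) := by ring

lemma mterm {x : ℝ} (hx1 : 1 < x) (hx4 : x ^ 4 = 2) {p m : ℕ} (hp : 32 ≤ p) (hm : 4 ≤ m)
    (hmp : m ≤ p) :
    (p : ℝ) ^ m * (x ^ (m * (2 * p - m - 3)))⁻¹ ≤ 128 * p ^ 4 / 4 ^ p * (1 / 2) ^ (m - 4) := by
  obtain ⟨j, rfl⟩ := Nat.exists_eq_add_of_le hm
  have hj : 4 + j - 4 = j := by omega
  rw [hj]
  obtain ⟨i, hi⟩ := Nat.exists_eq_add_of_le hmp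
  have e1 : 2 * p - (4 + j) - 3 = 1 + j + 2 * i := by omega
  have e3 : (4 + j) * (2 * p - (4 + j) - 3) = 4 * (2 * p - 7) + j * (2 * p - (4 + j) - 7) := by
    have e2 : 2 * p - 7 = 1 + 2 * j + 2 * i := by omega
    have e4 : 2 * p - (4 + j) - 7 + 3 = j + 2 * i := by omega
    have e5 : j * (2 * p - (4 + j) - 7) + 3 * j = j * (j + 2 * i) := by
      rw [← e4]; ring
    rw [e1, e2]
    nlinarith [e5]
  have hpos : (0 : ℝ) < p := by
    have : 0 < p := by omega
    exact_mod_cast this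
  have hx0 : 0 < x := by linarith
  have h1 : (2 * p : ℝ) ≤ x ^ (p - 7) := by
    have h2 : ((2 * p : ℝ)) ^ 4 ≤ (x ^ (p - 7)) ^ 4 := by
      rw [← pow_mul, mul_comm (p - 7) 4, pow_mul, hx4]
      have h3 := hp32 p hp
      have h4 : 2 ^ p = 2 ^ 7 * 2 ^ (p - 7) := by
        rw [← pow_add]; congr 1; omega
      rw [h4] at h3
      have h5 : (2 * p) ^ 4 ≤ 2 ^ (p - 7) := by
        have : (2 * p) ^ 4 * 2 ^ 7 ≤ 2 ^ (p - 7) * 2 ^ 7 := by
          calc (2 * p) ^ 4 * 2 ^ 7 = p ^ 4 * 2 ^ 11 := by ring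
            _ ≤ 2 ^ 7 * 2 ^ (p - 7) := h3
            _ = _ := by ring
        exact Nat.le_of_mul_le_mul_right this (by norm_num)
      exact_mod_cast h5
    exact le_of_pow_le_pow_left₀ (by norm_num) (by positivity) h2
  have h6 : (2 : ℝ) ^ (2 * p - 7) * (2 * p) ^ j ≤ x ^ ((4 + j) * (2 * p - (4 + j) - 3)) := by
    rw [e3, pow_add, pow_mul, hx4]
    refine mul_le_mul_of_nonneg_left ?_ (by positivity)
    calc (2 * p : ℝ) ^ j ≤ (x ^ (p - 7)) ^ j := pow_le_pow_left₀ (by positivity) h1 j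
      _ = x ^ (j * (p - 7)) := by rw [← pow_mul, mul_comm]
      _ ≤ x ^ (j * (2 * p - (4 + j) - 7)) := by
        refine pow_le_pow_right₀ hx1.le (Nat.mul_le_mul_left _ ?_)
        omega
  have h7 : (4 : ℝ) ^ p = 128 * 2 ^ (2 * p - 7) := by
    have h8 : (4 : ℝ) ^ p = 2 ^ (2 * p) := by
      rw [pow_mul]; norm_num
    have h9 : 2 * p = 7 + (2 * p - 7) := by omega
    rw [h8, h9, pow_add]
    norm_num
  have h10 : (x ^ ((4 + j) * (2 * p - (4 + j) - 3)))⁻¹ ≤ ((2 : ℝ) ^ (2 * p - 7) * (2 * p) ^ j)⁻¹ :=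
    inv_anti₀ (by positivity) h6
  calc (p : ℝ) ^ (4 + j) * (x ^ ((4 + j) * (2 * p - (4 + j) - 3)))⁻¹
      ≤ (p : ℝ) ^ (4 + j) * ((2 : ℝ) ^ (2 * p - 7) * (2 * p) ^ j)⁻¹ :=
        mul_le_mul_of_nonneg_left h10 (by positivity)
    _ = 128 * p ^ 4 / 4 ^ p * (1 / 2) ^ j := by
        rw [h7, mul_pow, pow_add, one_div, inv_pow]
        field_simp

lemma geo (p : ℕ) :
    ∑ m ∈ range (p + 1), (if 4 ≤ m then (1 / 2 : ℝ) ^ (m - 4) else 0) ≤ 2 := by
  have h1 : range (p + 1) ⊆ range (4 + (p + 1)) := by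
    intro m hm; rw [mem_range] at hm ⊢; omega
  refine (sum_le_sum_of_subset_of_nonneg h1 (fun m _ _ => by split_ifs <;> positivity)).trans ?_
  rw [sum_range_add]
  have h2 : ∑ m ∈ range 4, (if 4 ≤ m then (1 / 2 : ℝ) ^ (m - 4) else 0) = 0 := by
    apply sum_eq_zero
    intro m hm
    rw [mem_range] at hm
    rw [if_neg (by omega)]
  rw [h2, zero_add]
  have h3 : ∀ m ∈ range (p + 1), (if 4 ≤ 4 + m then (1 / 2 : ℝ) ^ (4 + m - 4) else 0) =
      (1 / 2 : ℝ) ^ m := by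
    intro m _
    rw [if_pos (by omega)]
    congr 1
    omega
  rw [sum_congr rfl h3]
  exact sum_geometric_two_le _

variable {α : Type*} [Fintype α]

/-- half the number of ordered pairs -/
def N2 (p : ℕ) : ℕ := p * (p - 1) / 2

lemma two_mul_N2 (p : ℕ) : 2 * N2 p = p * (p - 1) := by
  rw [N2]
  exact Nat.mul_div_cancel' (even_iff_two_dvd.mp (Nat.even_mul_pred_self p))

lemma sum_invs :
    ∑ f : Pr α → Bool, ((invs f).card : ℝ) =
      ∑ σ ∈ univ.filter (fun σ : Perm α => σ * σ = 1), ((fixA σ).card : ℝ) := by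
  have h1 : ∀ f : Pr α → Bool, ((invs f).card : ℝ) =
      ∑ σ ∈ univ.filter (fun σ : Perm α => σ * σ = 1), if Anti f σ then (1 : ℝ) else 0 := by
    intro f
    rw [← sum_filter, filter_filter, sum_const, nsmul_eq_mul, mul_one, invs]
    congr 2
    ext σ
    simp only [mem_filter, mem_univ, true_and]
    exact and_comm
  simp only [h1]
  rw [sum_comm]
  refine sum_congr rfl fun σ _ => ?_
  rw [← sum_filter, sum_const, nsmul_eq_mul, mul_one, fixA]

lemma S1_eq :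
    ∑ f : Pr α → Bool, ((invs f).card : ℝ) = 2 ^ N2 (Fintype.card α) * aa (Fintype.card α) := by
  rw [sum_invs, ← sum_invol_two_pow, mul_sum]
  refine sum_congr rfl fun σ hσ => ?_
  simp only [mem_filter, mem_univ, true_and] at hσ
  obtain ⟨c, h1, h2⟩ := card_fixA hσ
  rw [support_of_invol hσ, ← two_mul_N2] at h2
  have h3 : c = N2 (Fintype.card α) + σ.cycleType.card := by omega
  rw [h1, h3]
  push_cast
  rw [pow_add]

lemma sum_trip :
    ∑ f : Pr α → Bool, ((trip f).card : ℝ) =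
      ∑ σ ∈ univ.filter (fun σ : Perm α => σ * σ = 1),
        ∑ q ∈ univ.filter (fun q : α × α => q.1 ≠ q.2 ∧ σ q.1 = q.1 ∧ σ q.2 = q.2),
          ((fixAB σ (swap q.1 q.2)).card : ℝ) := by
  have h1 : ∀ f : Pr α → Bool, ((trip f).card : ℝ) =
      ∑ σ ∈ univ.filter (fun σ : Perm α => σ * σ = 1),
        ∑ q ∈ univ.filter (fun q : α × α => q.1 ≠ q.2 ∧ σ q.1 = q.1 ∧ σ q.2 = q.2),
          if Anti f σ ∧ Aut f (swap q.1 q.2) then (1 : ℝ) else 0 := by
    intro f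
    have h2 : ((trip f).card : ℝ) = ∑ z : Perm α × α × α, if z ∈ trip f then (1 : ℝ) else 0 := by
      rw [← sum_filter, sum_const, nsmul_eq_mul, mul_one]
      congr 2
      ext z
      simp
    rw [h2, Fintype.sum_prod_type, sum_filter]
    refine sum_congr rfl fun σ _ => ?_
    split_ifs with hσ
    · rw [sum_filter]
      refine sum_congr rfl fun q _ => ?_
      by_cases hq : q.1 ≠ q.2 ∧ σ q.1 = q.1 ∧ σ q.2 = q.2
      · rw [if_pos hq]
        refine if_congr ?_ rfl rfl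
        simp only [trip, mem_filter, mem_univ, true_and]
        constructor
        · rintro ⟨⟨h1, _⟩, _, h3⟩; exact ⟨h1, h3⟩
        · rintro ⟨h1, h3⟩; exact ⟨⟨h1, hσ⟩, hq, h3⟩
      · rw [if_neg hq, if_neg]
        simp only [trip, mem_filter, mem_univ, true_and]
        rintro ⟨_, h, _⟩
        exact hq h
    · apply sum_eq_zero
      intro q _
      rw [if_neg]
      simp only [trip, mem_filter, mem_univ, true_and]
      rintro ⟨⟨_, h⟩, _⟩
      exact hσ h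
  simp only [h1]
  rw [sum_comm]
  refine sum_congr rfl fun σ _ => ?_
  rw [sum_comm]
  refine sum_congr rfl fun q _ => ?_
  rw [← sum_filter, sum_const, nsmul_eq_mul, mul_one, fixAB]

lemma card_fixed_pairs (σ : Perm α) :
    (univ.filter (fun q : α × α => q.1 ≠ q.2 ∧ σ q.1 = q.1 ∧ σ q.2 = q.2)).card =
      (Fintype.card α - σ.support.card) * (Fintype.card α - σ.support.card - 1) := by
  have h1 : univ.filter (fun q : α × α => q.1 ≠ q.2 ∧ σ q.1 = q.1 ∧ σ q.2 = q.2) =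
      (σ.support)ᶜ.offDiag := by
    ext q
    simp only [mem_filter, mem_univ, true_and, mem_offDiag, mem_compl, Perm.mem_support, not_not]
    tauto
  rw [h1, offDiag_card, card_compl]
  conv_rhs => rw [Nat.mul_sub, mul_one]

lemma S2_eq (hp : 2 ≤ Fintype.card α) :
    ∑ f : Pr α → Bool, ((trip f).card : ℝ) =
      2 ^ N2 (Fintype.card α) * ((Fintype.card α : ℝ) * ((Fintype.card α - 1 : ℕ) : ℝ) *
        aa (Fintype.card α - 2) / 2 ^ (Fintype.card α - 2)) := by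
  rw [sum_trip, ← sum_invol_two_pow_ff, sum_div, mul_sum]
  refine sum_congr rfl fun σ hσ => ?_
  simp only [mem_filter, mem_univ, true_and] at hσ
  have h1 : ∀ q ∈ univ.filter (fun q : α × α => q.1 ≠ q.2 ∧ σ q.1 = q.1 ∧ σ q.2 = q.2),
      ((fixAB σ (swap q.1 q.2)).card : ℝ) =
        2 ^ N2 (Fintype.card α) * (2 ^ σ.cycleType.card / 2 ^ (Fintype.card α - 2)) := by
    intro q hq
    simp only [mem_filter, mem_univ, true_and] at hq
    obtain ⟨c, h1, h2⟩ := card_fixA_swap hσ hq.1 hq.2.1 hq.2.2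
    rw [fixAB, h1]
    rw [support_of_invol hσ, ← two_mul_N2] at h2
    have h3 : (Fintype.card α - 2) * (Fintype.card α - 2 - 1) + 4 * Fintype.card α =
        2 * N2 (Fintype.card α) + 6 := by
      rw [two_mul_N2]
      obtain ⟨q, hq⟩ : ∃ q, Fintype.card α = q + 2 := ⟨Fintype.card α - 2, by omega⟩
      rw [hq]
      rcases Nat.eq_zero_or_pos q with rfl | hq0
      · norm_num
      · obtain ⟨k, rfl⟩ : ∃ k, q = k + 1 := ⟨q - 1, by omega⟩
        have e1 : k + 1 + 2 - 2 = k + 1 := by omega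
        have e2 : k + 1 - 1 = k := by omega
        have e3 : k + 1 + 2 - 1 = k + 2 := by omega
        rw [e1, e2, e3]
        ring
    have h4 : c + (Fintype.card α - 2) = N2 (Fintype.card α) + σ.cycleType.card := by omega
    push_cast
    rw [← mul_div_assoc, eq_div_iff (by positivity), ← pow_add, ← pow_add, h4]
  rw [sum_congr rfl h1, sum_const, card_fixed_pairs, support_of_invol hσ, nsmul_eq_mul]
  push_cast
  ring

end Pool.Agent.Lib.MP_b5e4d4
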