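import Pool.Agent.Lib.MP_b5e4d4_co.Final

set_option autoImplicit false

open Finset

namespace Pool.Agent.Lib.MP_b5e4d4_co.TwoTermKept

open Pool.Agent.Lib.MP_b5e4d4

/-- arc sets without loops are Boolean functions on the ordered pairs of distinct points -/
noncomputable def arcEquiv (p : ℕ) :
    {A : Finset (Fin p × Fin p) // (∀ e ∈ A, e.1 ≠ e.2) ∧
        ∃ σ : Equiv.Perm (Fin p), ∀ u v : Fin p, (u, v) ∈ A ↔ (σ v, σ u) ∈ A} ≃
      {f : Pr (Fin p) → Bool // f ∈ SC (Fin p)} where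
  toFun A := ⟨fun x => decide (x.1 ∈ A.1), by
    obtain ⟨A, hA, σ, hσ⟩ := A
    simp only [SC, mem_filter, mem_univ, true_and]
    refine ⟨σ, fun x => ?_⟩
    show decide ((ph σ x).1 ∈ A) = decide (x.1 ∈ A)
    rw [decide_eq_decide]
    have h := hσ x.1.1 x.1.2
    exact h.symm⟩
  invFun f := ⟨univ.filter (fun e => ∃ h : e.1 ≠ e.2, f.1 ⟨e, h⟩ = true), by
    obtain ⟨f, hf⟩ := f
    simp only [SC, mem_filter, mem_univ, true_and] at hf
    obtain ⟨σ, hσ⟩ := hf
    refine ⟨fun e he => ?_, σ, fun u v => ?_⟩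
    · simp only [mem_filter, mem_univ, true_and] at he
      exact he.1
    · simp only [mem_filter, mem_univ, true_and]
      constructor
      · rintro ⟨h, h1⟩
        refine ⟨fun h2 => h (σ.injective h2).symm, ?_⟩
        rw [← h1, ← hσ ⟨(u, v), h⟩]
        rfl
      · rintro ⟨h, h1⟩
        have hne : u ≠ v := fun h2 => h (by rw [h2])
        refine ⟨hne, ?_⟩
        rw [← h1, ← hσ ⟨(u, v), hne⟩]
        rfl⟩
  left_inv A := by
    obtain ⟨A, hA, hA2⟩ := A
    apply Subtype.ext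
    ext e
    simp only [mem_filter, mem_univ, true_and, decide_eq_true_eq]
    exact ⟨fun h => h.2, fun h => ⟨hA e h, h⟩⟩
  right_inv f := by
    obtain ⟨f, hf⟩ := f
    apply Subtype.ext
    funext x
    have h : (x.1 ∈ univ.filter (fun e : Fin p × Fin p => ∃ h : e.1 ≠ e.2, f ⟨e, h⟩ = true)) ↔
        f x = true := by
      simp only [mem_filter, mem_univ, true_and]
      exact ⟨fun h => h.2, fun h => ⟨x.2, h⟩⟩
    show decide _ = f x
    by_cases hx : f x = true
    · rw [hx, decide_eq_true_eq]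
      exact h.mpr hx
    · have hx' : f x = false := by simpa using hx
      rw [hx', decide_eq_false_iff_not]
      exact fun h' => hx (h.mp h')

/-- The number of labelled self-converse digraphs of order `p`, to second order, with an
explicit error bound. -/
theorem result (p : ℕ) (hp : 32 ≤ p) :
    |(Nat.card {A : Finset (Fin p × Fin p) // (∀ e ∈ A, e.1 ≠ e.2) ∧
        ∃ σ : Equiv.Perm (Fin p), ∀ u v : Fin p, (u, v) ∈ A ↔ (σ v, σ u) ∈ A} : ℝ) -
      2 ^ (p * (p - 1) / 2) *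
        (∑ k ∈ range (p / 2 + 1), (p.factorial : ℝ) / (k.factorial * (p - 2 * k).factorial) -
          (p : ℝ) * ((p : ℝ) - 1) / 2 ^ (p - 1) *
            ∑ k ∈ range ((p - 2) / 2 + 1),
              ((p - 2).factorial : ℝ) / (k.factorial * (p - 2 - 2 * k).factorial))| ≤
      145 * (p : ℝ) ^ 6 / 4 ^ p *
        (2 ^ (p * (p - 1) / 2) *
          ∑ k ∈ range (p / 2 + 1), (p.factorial : ℝ) / (k.factorial * (p - 2 * k).factorial)) := by
  have h1 : Nat.card {A : Finset (Fin p × Fin p) // (∀ e ∈ A, e.1 ≠ e.2) ∧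
        ∃ σ : Equiv.Perm (Fin p), ∀ u v : Fin p, (u, v) ∈ A ↔ (σ v, σ u) ∈ A} =
      (SC (Fin p)).card := by
    rw [Nat.card_congr (arcEquiv p), Nat.card_eq_fintype_card, Fintype.card_coe]
  rw [h1]
  have h2 := main (α := Fin p) (by rw [Fintype.card_fin]; exact hp)
  rw [Fintype.card_fin] at h2
  have h3 : (p : ℝ) * ((p : ℝ) - 1) / 2 ^ (p - 1) * aa (p - 2) =
      (p : ℝ) * ((p : ℝ) - 1) * aa (p - 2) / 2 ^ (p - 1) := by ring
  simp only [N2, aa] at h2 h3 ⊢
  rw [h3]
  exact h2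

end Pool.Agent.Lib.MP_b5e4d4_co.TwoTermKept
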